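import Pool.Agent.Zk87.PL.K3

/-!
# Dimensions of quotients
-/

set_option autoImplicit false

namespace Pool.Agent.Zk87.PL

open Pool.Agent.H777R4.DM

/-- a bound for a quotient in two steps -/
theorem two_step (P R Q : Submodule ℚ A) (W : Submodule ℚ Fn) [FiniteDimensional ℚ W]
    (hf : Module.Finite ℚ (P ⧸ R.submoduleOf P))
    (hT : ∀ ψ ∈ R, Th ψ ∈ W) (hk : ∀ ψ ∈ R, Th ψ = 0 → ψ ∈ Q) :
    Module.Finite ℚ (P ⧸ Q.submoduleOf P) ∧
      Module.finrank ℚ (P ⧸ Q.submoduleOf P) ≤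
        Module.finrank ℚ (P ⧸ R.submoduleOf P) + Module.finrank ℚ W := by
  obtain ⟨s, hs⟩ := (R.submoduleOf P).mkQ.exists_rightInverse_of_surjective
    (Submodule.range_mkQ _)
  have hmem : ∀ ψ : P, (ψ - s ((R.submoduleOf P).mkQ ψ)).1 ∈ R := by
    intro ψ
    have h1 : (R.submoduleOf P).mkQ (ψ - s ((R.submoduleOf P).mkQ ψ)) = 0 := by
      rw [map_sub]
      have := LinearMap.congr_fun hs ((R.submoduleOf P).mkQ ψ)
      rw [LinearMap.comp_apply, LinearMap.id_apply] at this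
      rw [this, sub_self]
    rw [Submodule.mkQ_apply, Submodule.Quotient.mk_eq_zero] at h1
    exact h1
  let T1 : P →ₗ[ℚ] W := LinearMap.codRestrict W
    (Th ∘ₗ P.subtype ∘ₗ (LinearMap.id - s ∘ₗ (R.submoduleOf P).mkQ))
    fun ψ => hT _ (hmem ψ)
  let T : P →ₗ[ℚ] (P ⧸ R.submoduleOf P) × W := LinearMap.prod (R.submoduleOf P).mkQ T1
  have hker : LinearMap.ker T ≤ Q.submoduleOf P := by
    intro ψ hψ
    have h1 := LinearMap.mem_ker.1 hψ
    have h2 : (R.submoduleOf P).mkQ ψ = 0 := congrArg Prod.fst h1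
    have h3 : (T1 ψ).1 = 0 := congrArg (fun u => u.2.1) h1
    have h4 : (T1 ψ).1 = Th (ψ - s ((R.submoduleOf P).mkQ ψ)).1 := rfl
    rw [h2, map_zero, sub_zero] at h4
    rw [h4] at h3
    rw [Submodule.mkQ_apply, Submodule.Quotient.mk_eq_zero] at h2
    exact hk ψ.1 h2 h3
  have e := T.quotKerEquivRange
  have f1 : Module.Finite ℚ (P ⧸ LinearMap.ker T) := Module.Finite.equiv e.symm
  have hsu := Submodule.factor_surjective hker
  refine ⟨Module.Finite.of_surjective _ hsu, ?_⟩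
  refine (LinearMap.finrank_le_finrank_of_surjective hsu).trans ?_
  rw [e.finrank_eq, ← Module.finrank_prod]
  exact Submodule.finrank_le _

end Pool.Agent.Zk87.PL
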