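import Mathlib

/-!
# Two finite groups acting on polynomials in three variables

`V r` are the homogeneous polynomial functions of degree `r` of three variables, `EB` is the average
over the signed permutations, `ED` the average over those which fix the first axis, and `Rh` a linear
substitution which normalizes the latter group.  The functions `f` of degree `2 s ≥ 2` with
`ED f = f`, `EB f = 0`, `EB (Rh f) = 0` form a space of dimension at most `(4 s² - 1) / 48`.
-/

set_option autoImplicit false

namespace Pool.Agent.Zk87.PL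

/-- triples -/
abbrev P3 : Type := ℚ × ℚ × ℚ

/-- functions of three rational variables -/
abbrev Fn : Type := P3 → ℚ

/-- monomial functions -/
def mon (i j l : ℕ) : Fn := fun p => p.1 ^ i * p.2.1 ^ j * p.2.2 ^ l

/-- homogeneous polynomial functions of degree `r` -/
def V (r : ℕ) : Submodule ℚ Fn :=
  Submodule.span ℚ {f | ∃ i j l, i + j + l = r ∧ f = mon i j l}

theorem mon_mem (i j l : ℕ) : mon i j l ∈ V (i + j + l) :=
  Submodule.subset_span ⟨i, j, l, rfl, rfl⟩

theorem mon_mem' {i j l r : ℕ} (h : i + j + l = r) : mon i j l ∈ V r := h ▸ mon_mem i j l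

theorem lin_mul {r : ℕ} {f : Fn} (hf : f ∈ V r) (α β γ : ℚ) :
    (fun p => (α * p.1 + β * p.2.1 + γ * p.2.2) * f p) ∈ V (r + 1) := by
  unfold V at hf
  induction hf using Submodule.span_induction with
  | mem f h =>
    obtain ⟨i, j, l, h1, rfl⟩ := h
    have e : (fun p : P3 => (α * p.1 + β * p.2.1 + γ * p.2.2) * mon i j l p) =
        α • mon (i + 1) j l + β • mon i (j + 1) l + γ • mon i j (l + 1) := by
      funext p
      simp only [mon, Pi.add_apply, Pi.smul_apply, smul_eq_mul]
      ring
    rw [e]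
    refine Submodule.add_mem _ (Submodule.add_mem _ ?_ ?_) ?_ <;>
      exact Submodule.smul_mem _ _ (mon_mem' (by omega))
  | zero =>
    have e : (fun p : P3 => (α * p.1 + β * p.2.1 + γ * p.2.2) * (0 : Fn) p) = 0 := by
      funext p; simp
    rw [e]
    exact Submodule.zero_mem _
  | add f g _ _ hf hg =>
    have e : (fun p : P3 => (α * p.1 + β * p.2.1 + γ * p.2.2) * (f + g) p) =
        (fun p => (α * p.1 + β * p.2.1 + γ * p.2.2) * f p) +
          (fun p => (α * p.1 + β * p.2.1 + γ * p.2.2) * g p) := by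
      funext p; simp only [Pi.add_apply]; ring
    rw [e]
    exact Submodule.add_mem _ hf hg
  | smul c f _ hf =>
    have e : (fun p : P3 => (α * p.1 + β * p.2.1 + γ * p.2.2) * (c • f) p) =
        c • (fun p => (α * p.1 + β * p.2.1 + γ * p.2.2) * f p) := by
      funext p; simp only [Pi.smul_apply, smul_eq_mul]; ring
    rw [e]
    exact Submodule.smul_mem _ _ hf

theorem lin_pow {r : ℕ} {f : Fn} (hf : f ∈ V r) (α β γ : ℚ) (n : ℕ) :
    (fun p => (α * p.1 + β * p.2.1 + γ * p.2.2) ^ n * f p) ∈ V (r + n) := by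
  induction n with
  | zero => simpa using hf
  | succ n ih =>
    have := lin_mul ih α β γ
    have e : (fun p : P3 => (α * p.1 + β * p.2.1 + γ * p.2.2) ^ (n + 1) * f p) =
        fun p => (α * p.1 + β * p.2.1 + γ * p.2.2) *
          ((α * p.1 + β * p.2.1 + γ * p.2.2) ^ n * f p) := by
      funext p; ring
    rw [e]
    exact this

/-- the linear map with a given matrix -/
def lm (m : Fin 3 → Fin 3 → ℚ) (p : P3) : P3 :=
  (m 0 0 * p.1 + m 0 1 * p.2.1 + m 0 2 * p.2.2, m 1 0 * p.1 + m 1 1 * p.2.1 + m 1 2 * p.2.2,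
    m 2 0 * p.1 + m 2 1 * p.2.1 + m 2 2 * p.2.2)

theorem one_mem : (fun _ : P3 => (1 : ℚ)) ∈ V 0 := by
  have h := mon_mem 0 0 0
  have e : mon 0 0 0 = fun _ : P3 => (1 : ℚ) := by
    funext p; simp [mon]
  rwa [e] at h

theorem subst_mem {r : ℕ} {f : Fn} (hf : f ∈ V r) (m : Fin 3 → Fin 3 → ℚ) :
    (fun p => f (lm m p)) ∈ V r := by
  unfold V at hf
  induction hf using Submodule.span_induction with
  | mem f h =>
    obtain ⟨i, j, l, h1, rfl⟩ := h
    have h2 := lin_pow (lin_pow (lin_pow one_mem (m 2 0) (m 2 1) (m 2 2) l)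
      (m 1 0) (m 1 1) (m 1 2) j) (m 0 0) (m 0 1) (m 0 2) i
    have e : (fun p => mon i j l (lm m p)) = fun p : P3 =>
        (m 0 0 * p.1 + m 0 1 * p.2.1 + m 0 2 * p.2.2) ^ i *
        ((m 1 0 * p.1 + m 1 1 * p.2.1 + m 1 2 * p.2.2) ^ j *
        ((m 2 0 * p.1 + m 2 1 * p.2.1 + m 2 2 * p.2.2) ^ l * 1)) := by
      funext p
      simp only [mon, lm]
      ring
    rw [e]
    have h3 : 0 + l + j + i = r := by omega
    rw [h3] at h2
    exact h2
  | zero => exact Submodule.zero_mem (V r)
  | add f g _ _ hf hg => exact Submodule.add_mem (V r) hf hg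
  | smul c f _ hf => exact Submodule.smul_mem (V r) c hf

instance fin_V (r : ℕ) : FiniteDimensional ℚ (V r) := by
  unfold V
  refine FiniteDimensional.span_of_finite ℚ ?_
  refine Set.Finite.subset (s := (fun t : ℕ × ℕ × ℕ => mon t.1 t.2.1 t.2.2) ''
    ((Finset.range (r + 1) ×ˢ (Finset.range (r + 1) ×ˢ Finset.range (r + 1)) :
      Finset (ℕ × ℕ × ℕ)) : Set (ℕ × ℕ × ℕ))) ((Finset.finite_toSet _).image _) ?_
  rintro f ⟨i, j, l, h, rfl⟩
  refine ⟨(i, j, l), ?_, rfl⟩
  simp only [Finset.coe_product, Finset.coe_range, Set.mem_prod, Set.mem_Iio]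
  omega

/-! ### independence of the monomials -/

/-- the polynomial function of a finite family of coefficients -/
noncomputable def Ps : (ℕ × ℕ × ℕ →₀ ℚ) →ₗ[ℚ] Fn :=
  Finsupp.linearCombination ℚ fun t => mon t.1 t.2.1 t.2.2

/-- exponents as finitely supported functions -/
noncomputable def ex (t : ℕ × ℕ × ℕ) : Fin 3 →₀ ℕ := Finsupp.equivFunOnFinite.symm ![t.1, t.2.1, t.2.2]

theorem ex_inj : Function.Injective ex := by
  intro s t h
  have h1 := Finsupp.equivFunOnFinite.symm.injective h
  have a := congrFun h1 0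
  have b := congrFun h1 1
  have c := congrFun h1 2
  simp at a b c
  exact Prod.ext a (Prod.ext b c)

theorem Ps_inj (F : ℕ × ℕ × ℕ →₀ ℚ) (h : Ps F = 0) : F = 0 := by
  let p : MvPolynomial (Fin 3) ℚ := F.sum fun t c => MvPolynomial.monomial (ex t) c
  have hp : p = 0 := by
    refine MvPolynomial.funext fun z => ?_
    have h1 := congrFun h (z 0, z 1, z 2)
    rw [map_zero]
    rw [Pi.zero_apply] at h1
    rw [← h1]
    simp only [p, Ps, Finsupp.linearCombination_apply, Finsupp.sum, map_sum, Finset.sum_apply]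
    refine Finset.sum_congr rfl fun t _ => ?_
    rw [MvPolynomial.eval_monomial, Finsupp.prod_fintype _ _ (fun i => pow_zero _),
      Fin.prod_univ_three]
    simp [ex, mon]
  ext t
  have h2 := congrArg (MvPolynomial.coeff (ex t)) hp
  rw [MvPolynomial.coeff_zero] at h2
  simp only [p, Finsupp.sum, MvPolynomial.coeff_sum, MvPolynomial.coeff_monomial] at h2
  rw [Finsupp.zero_apply]
  by_cases ht : t ∈ F.support
  · rw [Finset.sum_eq_single t] at h2
    · rwa [if_pos rfl] at h2
    · intro s _ hs
      rw [if_neg]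
      intro he
      exact hs (ex_inj he)
    · intro h'
      exact absurd ht h'
  · exact Finsupp.notMem_support_iff.1 ht

end Pool.Agent.Zk87.PL
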