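import Pool.Agent.Zk87.PL.Dim

/-!
# Averages over signed permutations
-/

set_option autoImplicit false

namespace Pool.Agent.Zk87.PL

/-- composition with a linear map -/
noncomputable def cm (m : Fin 3 → Fin 3 → ℚ) : Fn →ₗ[ℚ] Fn := LinearMap.funLeft ℚ ℚ (lm m)

theorem cm_apply (m : Fin 3 → Fin 3 → ℚ) (f : Fn) (p : P3) : cm m f p = f (lm m p) := rfl

theorem cm_mem {r : ℕ} {f : Fn} (hf : f ∈ V r) (m : Fin 3 → Fin 3 → ℚ) : cm m f ∈ V r :=
  subst_mem hf m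

/-- signed permutation matrices and the substitutions -/
def n1 : Fin 3 → Fin 3 → ℚ := ![![-1, 0, 0], ![0, 1, 0], ![0, 0, 1]]
def n2 : Fin 3 → Fin 3 → ℚ := ![![1, 0, 0], ![0, -1, 0], ![0, 0, 1]]
def n3 : Fin 3 → Fin 3 → ℚ := ![![1, 0, 0], ![0, 1, 0], ![0, 0, -1]]
def s12 : Fin 3 → Fin 3 → ℚ := ![![0, 1, 0], ![1, 0, 0], ![0, 0, 1]]
def s13 : Fin 3 → Fin 3 → ℚ := ![![0, 0, 1], ![0, 1, 0], ![1, 0, 0]]
def s23 : Fin 3 → Fin 3 → ℚ := ![![1, 0, 0], ![0, 0, 1], ![0, 1, 0]]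
def cy : Fin 3 → Fin 3 → ℚ := ![![0, 1, 0], ![0, 0, 1], ![1, 0, 0]]
def cy' : Fin 3 → Fin 3 → ℚ := ![![0, 0, 1], ![1, 0, 0], ![0, 1, 0]]
def rh : Fin 3 → Fin 3 → ℚ := ![![1, 0, 0], ![0, 1, 1], ![0, -1, 1]]
def rhi : Fin 3 → Fin 3 → ℚ := ![![1, 0, 0], ![0, 1 / 2, -1 / 2], ![0, 1 / 2, 1 / 2]]
def hh : Fin 3 → Fin 3 → ℚ := ![![0, 1 / 2, -1 / 2], ![1, 1 / 2, 1 / 2], ![-1, 1 / 2, 1 / 2]]

theorem n1_apply (a b c : ℚ) : lm n1 (a, b, c) = (-a, b, c) := by simp [lm, n1]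
theorem n2_apply (a b c : ℚ) : lm n2 (a, b, c) = (a, -b, c) := by simp [lm, n2]
theorem n3_apply (a b c : ℚ) : lm n3 (a, b, c) = (a, b, -c) := by simp [lm, n3]
theorem s12_apply (a b c : ℚ) : lm s12 (a, b, c) = (b, a, c) := by simp [lm, s12]
theorem s13_apply (a b c : ℚ) : lm s13 (a, b, c) = (c, b, a) := by simp [lm, s13]
theorem s23_apply (a b c : ℚ) : lm s23 (a, b, c) = (a, c, b) := by simp [lm, s23]
theorem cy_apply (a b c : ℚ) : lm cy (a, b, c) = (b, c, a) := by simp [lm, cy]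
theorem cy'_apply (a b c : ℚ) : lm cy' (a, b, c) = (c, a, b) := by simp [lm, cy']
theorem rh_apply (a b c : ℚ) : lm rh (a, b, c) = (a, b + c, c - b) := by
  simp [lm, rh]; ring
theorem rhi_apply (a b c : ℚ) : lm rhi (a, b, c) = (a, (b - c) / 2, (b + c) / 2) := by
  simp [lm, rhi]; constructor <;> ring
theorem hh_apply (a b c : ℚ) : lm hh (a, b, c) =
    ((b - c) / 2, a + (b + c) / 2, -a + (b + c) / 2) := by
  simp [lm, hh]; refine ⟨?_, ?_, ?_⟩ <;> ring

/-- average over the signs -/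
noncomputable def Sg : Fn →ₗ[ℚ] Fn :=
  ((1 / 2 : ℚ) • (LinearMap.id + cm n1)) ∘ₗ ((1 / 2 : ℚ) • (LinearMap.id + cm n2)) ∘ₗ
    ((1 / 2 : ℚ) • (LinearMap.id + cm n3))

/-- average over the signed permutations which fix the first axis -/
noncomputable def ED : Fn →ₗ[ℚ] Fn := ((1 / 2 : ℚ) • (LinearMap.id + cm s23)) ∘ₗ Sg

/-- average over a cyclic permutation -/
noncomputable def Cy : Fn →ₗ[ℚ] Fn := (1 / 3 : ℚ) • (LinearMap.id + cm cy + cm cy')

/-- average over the signed permutations -/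
noncomputable def EB : Fn →ₗ[ℚ] Fn := Cy ∘ₗ ED

theorem Sg_apply (f : Fn) (a b c : ℚ) : Sg f (a, b, c) =
    (1 / 8) * (f (a, b, c) + f (-a, b, c) + f (a, -b, c) + f (a, b, -c) + f (-a, -b, c) +
      f (-a, b, -c) + f (a, -b, -c) + f (-a, -b, -c)) := by
  simp only [Sg, LinearMap.comp_apply, LinearMap.smul_apply, LinearMap.add_apply,
    LinearMap.id_apply, Pi.add_apply, Pi.smul_apply, smul_eq_mul, cm_apply, n1_apply, n2_apply,
    n3_apply]
  ring

theorem ED_apply (f : Fn) (a b c : ℚ) : ED f (a, b, c) =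
    (1 / 2) * (Sg f (a, b, c) + Sg f (a, c, b)) := by
  simp only [ED, LinearMap.comp_apply, LinearMap.smul_apply, LinearMap.add_apply,
    LinearMap.id_apply, Pi.add_apply, Pi.smul_apply, smul_eq_mul, cm_apply, s23_apply]

theorem Cy_apply (f : Fn) (a b c : ℚ) : Cy f (a, b, c) =
    (1 / 3) * (f (a, b, c) + f (b, c, a) + f (c, a, b)) := by
  simp only [Cy, LinearMap.smul_apply, LinearMap.add_apply,
    LinearMap.id_apply, Pi.add_apply, Pi.smul_apply, smul_eq_mul, cm_apply, cy_apply, cy'_apply]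

theorem EB_apply (f : Fn) (a b c : ℚ) : EB f (a, b, c) =
    (1 / 6) * (Sg f (a, b, c) + Sg f (a, c, b) + Sg f (b, c, a) + Sg f (b, a, c) +
      Sg f (c, a, b) + Sg f (c, b, a)) := by
  rw [EB, LinearMap.comp_apply, Cy_apply, ED_apply, ED_apply, ED_apply]
  ring

theorem fn_ext {f g : Fn} (h : ∀ a b c, f (a, b, c) = g (a, b, c)) : f = g := by
  funext p
  obtain ⟨a, b, c⟩ := p
  exact h a b c

theorem Sg_n1 (f : Fn) (a b c : ℚ) : Sg f (-a, b, c) = Sg f (a, b, c) := by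
  simp only [Sg_apply, neg_neg]; ring
theorem Sg_n2 (f : Fn) (a b c : ℚ) : Sg f (a, -b, c) = Sg f (a, b, c) := by
  simp only [Sg_apply, neg_neg]; ring
theorem Sg_n3 (f : Fn) (a b c : ℚ) : Sg f (a, b, -c) = Sg f (a, b, c) := by
  simp only [Sg_apply, neg_neg]; ring

theorem Sg_cm_n1 (f : Fn) (a b c : ℚ) : Sg (cm n1 f) (a, b, c) = Sg f (a, b, c) := by
  simp only [Sg_apply, cm_apply, n1_apply, neg_neg]; ring
theorem Sg_cm_s12 (f : Fn) (a b c : ℚ) : Sg (cm s12 f) (a, b, c) = Sg f (b, a, c) := by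
  simp only [Sg_apply, cm_apply, s12_apply]; ring
theorem Sg_cm_s13 (f : Fn) (a b c : ℚ) : Sg (cm s13 f) (a, b, c) = Sg f (c, b, a) := by
  simp only [Sg_apply, cm_apply, s13_apply]; ring

theorem Sg_idem (f : Fn) (a b c : ℚ) : Sg (Sg f) (a, b, c) = Sg f (a, b, c) := by
  rw [Sg_apply (Sg f)]
  simp only [Sg_n1, Sg_n2, Sg_n3]; ring

theorem Sg_ED (f : Fn) (a b c : ℚ) : Sg (ED f) (a, b, c) = ED f (a, b, c) := by
  rw [Sg_apply]
  simp only [ED_apply, Sg_n1, Sg_n2, Sg_n3]; ring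

theorem ED_sw (f : Fn) (a b c : ℚ) : ED f (a, c, b) = ED f (a, b, c) := by
  rw [ED_apply, ED_apply]; ring

theorem ED_idem (f : Fn) : ED (ED f) = ED f := by
  refine fn_ext fun a b c => ?_
  rw [ED_apply, Sg_ED, Sg_ED, ED_sw]; ring

theorem EB_ED (f : Fn) : EB (ED f) = EB f := by
  rw [EB, LinearMap.comp_apply, ED_idem]; rfl

theorem EB_n1 (f : Fn) : EB (cm n1 f) = EB f := by
  refine fn_ext fun a b c => ?_
  simp only [EB_apply, Sg_cm_n1]

theorem EB_s12 (f : Fn) : EB (cm s12 f) = EB f := by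
  refine fn_ext fun a b c => ?_
  simp only [EB_apply, Sg_cm_s12]; ring

theorem EB_s13 (f : Fn) : EB (cm s13 f) = EB f := by
  refine fn_ext fun a b c => ?_
  simp only [EB_apply, Sg_cm_s13]; ring

theorem ED_rh (f : Fn) : ED (cm rh f) = cm rh (ED f) := by
  refine fn_ext fun a b c => ?_
  rw [cm_apply, rh_apply, ED_apply, ED_apply, Sg_apply, Sg_apply, Sg_apply, Sg_apply]
  simp only [cm_apply, rh_apply]
  have e1 : -b + c = c - b := by ring
  have e2 : b + -c = b - c := by ring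
  have e3 : -b + -c = -(b + c) := by ring
  have e4 : c - -b = b + c := by ring
  have e5 : -c - b = -(b + c) := by ring
  have e6 : -c - -b = b - c := by ring
  have e7 : -c + b = b - c := by ring
  have e8 : c + -b = c - b := by ring
  have e9 : -c + -b = -(b + c) := by ring
  have e10 : b - -c = b + c := by ring
  have e11 : -b - c = -(b + c) := by ring
  have e12 : -b - -c = c - b := by ring
  have e13 : c + b = b + c := by ring
  have e14 : -(c - b) = b - c := by ring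
  simp only [e1, e2, e3, e4, e5, e6, e7, e8, e9, e10, e11, e12, e13, e14]
  ring

theorem rh_hh (f : Fn) : cm rh (cm hh f) = cm s12 (cm rh f) := by
  refine fn_ext fun a b c => ?_
  simp only [cm_apply, rh_apply, hh_apply, s12_apply]
  congr 1
  refine Prod.ext ?_ (Prod.ext ?_ ?_) <;> simp only <;> ring

theorem rh_rhi (f : Fn) : cm rh (cm rhi f) = f := by
  refine fn_ext fun a b c => ?_
  simp only [cm_apply, rh_apply, rhi_apply]
  congr 1
  refine Prod.ext ?_ (Prod.ext ?_ ?_) <;> simp only <;> ring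

theorem Sg_mem {r : ℕ} {f : Fn} (hf : f ∈ V r) : Sg f ∈ V r := by
  have h : ∀ m, ∀ g ∈ V r, ((1 / 2 : ℚ) • (LinearMap.id + cm m) : Fn →ₗ[ℚ] Fn) g ∈ V r :=
    fun m g hg =>
    Submodule.smul_mem _ _ (Submodule.add_mem _ hg (cm_mem hg m))
  exact h _ _ (h _ _ (h _ _ hf))

theorem ED_mem {r : ℕ} {f : Fn} (hf : f ∈ V r) : ED f ∈ V r :=
  Submodule.smul_mem _ _ (Submodule.add_mem _ (Sg_mem hf) (cm_mem (Sg_mem hf) _))

theorem Cy_mem {r : ℕ} {f : Fn} (hf : f ∈ V r) : Cy f ∈ V r :=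
  Submodule.smul_mem _ _ (Submodule.add_mem _ (Submodule.add_mem _ hf (cm_mem hf _)) (cm_mem hf _))

/-- the word in the generators which is a transvection -/
theorem word_eq (f : Fn) : cm hh (cm s12 (cm hh (cm s13 (cm hh (cm s12 (cm hh (cm n1 f))))))) =
    fun p => f (p.1, p.2.1, p.2.2 + 2 * p.1) := by
  refine fn_ext fun a b c => ?_
  simp only [cm_apply, n1_apply, hh_apply, s12_apply, s13_apply]
  congr 1
  refine Prod.ext ?_ (Prod.ext ?_ ?_) <;> simp only <;> ring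

end Pool.Agent.Zk87.PL
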