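import Pool.Agent.Zk87.PL.Dim2

/-!
# The dimension of the common kernel
-/

set_option autoImplicit false

namespace Pool.Agent.Zk87.PL

/-- a functional on the polynomials of degree `r ≥ 1` which is invariant under the transvection
`c ↦ c + 2 a` vanishes at the monomials which contain `a` -/
theorem fun_zero {r : ℕ} (φ : V r →ₗ[ℚ] ℚ)
    (h : ∀ f g : V r, (∀ p : P3, g.1 p = f.1 (p.1, p.2.1, p.2.2 + 2 * p.1)) → φ g = φ f)
    (i j l : ℕ) (hr : i + 1 + j + l = r) : φ ⟨mon (i + 1) j l, mon_mem' hr⟩ = 0 := by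
  -- iterated transvection
  have hn : ∀ (n : ℕ) (f g : V r),
      (∀ p : P3, g.1 p = f.1 (p.1, p.2.1, p.2.2 + 2 * (n : ℚ) * p.1)) → φ g = φ f := by
    intro n
    induction n with
    | zero =>
      intro f g hfg
      have : g = f := by
        refine Subtype.ext (funext fun p => ?_)
        rw [hfg p]
        simp
      rw [this]
    | succ n ih =>
      intro f g hfg
      let m : Fin 3 → Fin 3 → ℚ := ![![1, 0, 0], ![0, 1, 0], ![2 * (n : ℚ), 0, 1]]
      let f' : V r := ⟨cm m f.1, cm_mem f.2 m⟩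
      have h1 : φ f' = φ f := by
        refine ih f f' fun p => ?_
        show f.1 (lm m p) = _
        congr 1
        simp [lm, m]
        ring
      rw [← h1]
      refine h f' g fun p => ?_
      rw [hfg p]
      show _ = f.1 (lm m _)
      congr 1
      simp [lm, m]
      ring
  -- expansion of the monomial
  have hm : ∀ k ∈ Finset.range (l + 2), i + k + j + (l + 1 - k) = r := by
    intro k hk
    rw [Finset.mem_range] at hk
    omega
  let v : ℕ → V r := fun k => if hk : k ∈ Finset.range (l + 2) then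
    ⟨mon (i + k) j (l + 1 - k), mon_mem' (hm k hk)⟩ else 0
  let P : Polynomial ℚ := ∑ k ∈ Finset.range (l + 2),
    Polynomial.monomial k (((l + 1).choose k : ℚ) * 2 ^ k * φ (v k))
  have hf : i + j + (l + 1) = r := by omega
  have h1 : ∀ n : ℕ, P.eval (n : ℚ) = φ ⟨mon i j (l + 1), mon_mem' hf⟩ := by
    intro n
    let g : V r := ∑ k ∈ Finset.range (l + 2),
      (((l + 1).choose k : ℚ) * 2 ^ k * (n : ℚ) ^ k) • v k
    have h2 : φ g = φ ⟨mon i j (l + 1), mon_mem' hf⟩ := by
      refine hn n _ g fun p => ?_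
      have e1 : g.1 = ∑ k ∈ Finset.range (l + 2),
          (((l + 1).choose k : ℚ) * 2 ^ k * (n : ℚ) ^ k) • mon (i + k) j (l + 1 - k) := by
        simp only [g, Submodule.coe_sum, Submodule.coe_smul]
        refine Finset.sum_congr rfl fun k hk => ?_
        simp only [v, dif_pos hk]
      rw [e1]
      simp only [Finset.sum_apply, Pi.smul_apply, smul_eq_mul, mon]
      have e2 : (p.2.2 + 2 * (n : ℚ) * p.1) ^ (l + 1) = ∑ k ∈ Finset.range (l + 2),
          (2 * (n : ℚ) * p.1) ^ k * p.2.2 ^ (l + 1 - k) * ((l + 1).choose k : ℚ) := by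
        rw [add_comm, add_pow]
      rw [e2, Finset.mul_sum]
      refine Finset.sum_congr rfl fun k _ => ?_
      rw [mul_pow, mul_pow, pow_add]
      ring
    rw [← h2]
    simp only [P, g, Polynomial.eval_finsetSum, Polynomial.eval_monomial, map_sum, map_smul,
      smul_eq_mul]
    refine Finset.sum_congr rfl fun k _ => ?_
    ring
  have h3 : P = Polynomial.C (φ ⟨mon i j (l + 1), mon_mem' hf⟩) := by
    refine Polynomial.eq_of_infinite_eval_eq _ _ ?_
    refine Set.Infinite.mono (s := Set.range (fun n : ℕ => (n : ℚ))) ?_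
      (Set.infinite_range_of_injective Nat.cast_injective)
    rintro _ ⟨n, rfl⟩
    simp only [Set.mem_ofPred_eq, Polynomial.eval_C]
    exact h1 n
  have h4 := congrArg (fun q => Polynomial.coeff q 1) h3
  simp only [P, Polynomial.finsetSum_coeff, Polynomial.coeff_monomial,
    Polynomial.coeff_C_succ] at h4
  rw [Finset.sum_ite_eq' (Finset.range (l + 2)) 1] at h4
  simp only [Finset.mem_range] at h4
  rw [if_pos (by omega)] at h4
  have h5 : v 1 = ⟨mon (i + 1) j l, mon_mem' hr⟩ := by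
    have : (1 : ℕ) ∈ Finset.range (l + 2) := by rw [Finset.mem_range]; omega
    simp only [v, dif_pos this]
    rfl
  rw [h5] at h4
  have h6 : (((l + 1).choose 1 : ℕ) : ℚ) * 2 ^ 1 ≠ 0 := by
    rw [Nat.choose_one_right]
    positivity
  exact (mul_eq_zero.1 h4).resolve_left h6

/-- a functional which factors through both averages vanishes -/
theorem two_averages {r : ℕ} (hr : 1 ≤ r) (α β : Fn →ₗ[ℚ] ℚ)
    (h : ∀ f ∈ V r, α (EB f) + β (EB (cm rh f)) = 0) :
    (∀ f ∈ V r, α (EB f) = 0) ∧ ∀ f ∈ V r, β (EB f) = 0 := by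
  have hhi : ∀ f ∈ V r, α (EB (cm hh f)) = α (EB f) := by
    intro f hf
    have h1 := h (cm hh f) (cm_mem hf _)
    have h2 := h f hf
    rw [rh_hh, EB_s12] at h1
    linarith
  let φ : V r →ₗ[ℚ] ℚ := α ∘ₗ EB ∘ₗ (V r).subtype
  have hφ : ∀ f : V r, φ f = α (EB f.1) := fun f => rfl
  have tr : ∀ f g : V r, (∀ p : P3, g.1 p = f.1 (p.1, p.2.1, p.2.2 + 2 * p.1)) → φ g = φ f := by
    intro f g hfg
    have e : g.1 = cm hh (cm s12 (cm hh (cm s13 (cm hh (cm s12 (cm hh (cm n1 f.1))))))) := by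
      rw [word_eq]
      exact funext hfg
    have f1 := cm_mem f.2 n1
    have f2 := cm_mem f1 hh
    have f3 := cm_mem f2 s12
    have f4 := cm_mem f3 hh
    have f5 := cm_mem f4 s13
    have f6 := cm_mem f5 hh
    have f7 := cm_mem f6 s12
    rw [hφ, hφ, e, hhi _ f7, EB_s12, hhi _ f5, EB_s13, hhi _ f3, EB_s12, hhi _ f1, EB_n1]
  have z1 : ∀ i j l : ℕ, i + 1 + j + l = r → α (EB (mon (i + 1) j l)) = 0 := fun i j l hijl =>
    fun_zero φ tr i j l hijl
  have m12 : ∀ i j l, cm s12 (mon i j l) = mon j i l := by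
    intro i j l
    refine fn_ext fun a b c => ?_
    simp only [cm_apply, s12_apply, mon]
    ring
  have m13 : ∀ i j l, cm s13 (mon i j l) = mon l j i := by
    intro i j l
    refine fn_ext fun a b c => ?_
    simp only [cm_apply, s13_apply, mon]
    ring
  have hα : ∀ f ∈ V r, α (EB f) = 0 := by
    intro f hf
    unfold V at hf
    induction hf using Submodule.span_induction with
    | mem f hf =>
      obtain ⟨i, j, l, h1, rfl⟩ := hf
      rcases Nat.eq_zero_or_pos i with hi | hi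
      · rcases Nat.eq_zero_or_pos j with hj | hj
        · obtain ⟨l', rfl⟩ : ∃ l', l = l' + 1 := ⟨l - 1, by omega⟩
          rw [← EB_s13, m13]
          exact z1 _ _ _ (by omega)
        · obtain ⟨j', rfl⟩ : ∃ j', j = j' + 1 := ⟨j - 1, by omega⟩
          rw [← EB_s12, m12]
          exact z1 _ _ _ (by omega)
      · obtain ⟨i', rfl⟩ : ∃ i', i = i' + 1 := ⟨i - 1, by omega⟩
        exact z1 _ _ _ (by omega)
    | zero => rw [map_zero, map_zero]
    | add f g _ _ hf hg => rw [map_add, map_add, hf, hg, add_zero]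
    | smul c f _ hf => rw [map_smul, map_smul, hf, smul_zero]
  refine ⟨hα, fun f hf => ?_⟩
  have h1 := h (cm rhi f) (cm_mem hf _)
  rw [hα _ (cm_mem hf _), rh_rhi, zero_add] at h1
  exact h1

/-- the functions fixed by `ED` -/
noncomputable def YY (r : ℕ) : Submodule ℚ Fn := (V r).map ED

/-- the functions fixed by `EB` -/
noncomputable def BB (r : ℕ) : Submodule ℚ Fn := (V r).map EB

instance fin_YY (r : ℕ) : FiniteDimensional ℚ (YY r) := by unfold YY; infer_instance
instance fin_BB (r : ℕ) : FiniteDimensional ℚ (BB r) := by unfold BB; infer_instance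

theorem YY_le (r : ℕ) : YY r ≤ V r := by
  rintro _ ⟨f, hf, rfl⟩
  exact ED_mem hf

theorem YY_fix {r : ℕ} {f : Fn} (hf : f ∈ YY r) : ED f = f := by
  obtain ⟨g, _, rfl⟩ := hf
  exact ED_idem g

/-- the two averages on `YY` -/
noncomputable def LL (r : ℕ) : YY r →ₗ[ℚ] BB r × BB r :=
  LinearMap.prod
    (LinearMap.codRestrict (BB r) (EB ∘ₗ (YY r).subtype)
      fun f => ⟨f.1, YY_le r f.2, rfl⟩)
    (LinearMap.codRestrict (BB r) (EB ∘ₗ cm rh ∘ₗ (YY r).subtype)
      fun f => ⟨cm rh f.1, cm_mem (YY_le r f.2) _, rfl⟩)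

theorem LL_fst (r : ℕ) (f : YY r) : (LL r f).1.1 = EB f.1 := rfl
theorem LL_snd (r : ℕ) (f : YY r) : (LL r f).2.1 = EB (cm rh f.1) := rfl

theorem LL_surj {r : ℕ} (hr : 1 ≤ r) : LinearMap.range (LL r) = ⊤ := by
  by_contra hne
  obtain ⟨ℓ, hℓ, hk⟩ := Submodule.exists_le_ker_of_lt_top _ (lt_top_iff_ne_top.2 hne)
  -- extensions of the two components
  obtain ⟨α, hα⟩ := LinearMap.exists_extend (ℓ ∘ₗ LinearMap.inl ℚ (BB r) (BB r))
  obtain ⟨β, hβ⟩ := LinearMap.exists_extend (ℓ ∘ₗ LinearMap.inr ℚ (BB r) (BB r))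
  have ha : ∀ u : BB r, α u.1 = ℓ (u, 0) := fun u => LinearMap.congr_fun hα u
  have hb : ∀ u : BB r, β u.1 = ℓ (0, u) := fun u => LinearMap.congr_fun hβ u
  have key := two_averages hr α β (by
    intro f hf
    have h1 : ℓ (LL r ⟨ED f, f, hf, rfl⟩) = 0 := hk ⟨_, rfl⟩
    have h2 : LL r ⟨ED f, f, hf, rfl⟩ = (⟨EB f, f, hf, rfl⟩, 0) +
        (0, ⟨EB (cm rh f), cm rh f, cm_mem hf _, rfl⟩) := by
      rw [Prod.mk_add_mk, add_zero, zero_add]
      refine Prod.ext (Subtype.ext ?_) (Subtype.ext ?_)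
      · rw [LL_fst]
        exact EB_ED f
      · rw [LL_snd]
        simp only
        rw [← ED_rh, EB_ED]
    rw [h2, map_add, ← ha, ← hb] at h1
    exact h1)
  apply hℓ
  refine LinearMap.ext fun u => ?_
  obtain ⟨⟨u1, f1, hf1, e1⟩, ⟨u2, f2, hf2, e2⟩⟩ := u
  have h3 : ((⟨u1, f1, hf1, e1⟩, ⟨u2, f2, hf2, e2⟩) : BB r × BB r) =
      (⟨u1, f1, hf1, e1⟩, 0) + (0, ⟨u2, f2, hf2, e2⟩) := by simp
  rw [h3, map_add, ← ha, ← hb, LinearMap.zero_apply]
  simp only
  rw [← e1, ← e2, key.1 f1 hf1, key.2 f2 hf2, add_zero]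

/-- the common kernel -/
noncomputable def XX3 (r : ℕ) : Submodule ℚ Fn where
  carrier := {f | f ∈ V r ∧ ED f = f ∧ EB f = 0 ∧ EB (cm rh f) = 0}
  add_mem' := by
    rintro f g ⟨a, b, c, d⟩ ⟨a', b', c', d'⟩
    refine ⟨Submodule.add_mem _ a a', ?_, ?_, ?_⟩
    · rw [map_add, b, b']
    · rw [map_add, c, c', add_zero]
    · rw [map_add, map_add, d, d', add_zero]
  zero_mem' := ⟨Submodule.zero_mem _, map_zero _, map_zero _, by rw [map_zero, map_zero]⟩
  smul_mem' := by
    rintro c f ⟨h1, h2, h3, h4⟩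
    refine ⟨Submodule.smul_mem _ _ h1, ?_, ?_, ?_⟩
    · rw [map_smul, h2]
    · rw [map_smul, h3, smul_zero]
    · rw [map_smul, map_smul, h4, smul_zero]

theorem XX3_le_V (r : ℕ) : XX3 r ≤ V r := fun _ h => h.1

instance fin_XX3 (r : ℕ) : FiniteDimensional ℚ (XX3 r) :=
  Submodule.finiteDimensional_of_le (XX3_le_V r)

theorem finrank_XX3 {r : ℕ} (hr : 1 ≤ r) :
    Module.finrank ℚ (XX3 r) + 2 * Module.finrank ℚ (BB r) ≤ Module.finrank ℚ (YY r) := by
  have h1 := LinearMap.finrank_range_add_finrank_ker (LL r)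
  rw [LL_surj hr, finrank_top, Module.finrank_prod] at h1
  have h2 : Module.finrank ℚ (XX3 r) ≤ Module.finrank ℚ (LinearMap.ker (LL r)) := by
    have hx : ∀ f : XX3 r, f.1 ∈ YY r := fun f => ⟨f.1, f.2.1, f.2.2.1⟩
    let T : XX3 r →ₗ[ℚ] LinearMap.ker (LL r) :=
      { toFun := fun f => ⟨⟨f.1, hx f⟩, by
          rw [LinearMap.mem_ker]
          refine Prod.ext (Subtype.ext ?_) (Subtype.ext ?_)
          · rw [LL_fst]; exact f.2.2.2.1
          · rw [LL_snd]; exact f.2.2.2.2⟩
        map_add' := fun f g => rfl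
        map_smul' := fun c f => rfl }
    refine LinearMap.finrank_le_finrank_of_injective (f := T) ?_
    intro f g hfg
    have := congrArg (fun u => u.1.1) hfg
    exact Subtype.ext this
  omega

end Pool.Agent.Zk87.PL
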