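import Pool.Agent.Zk87.PL.Dim3

/-!
# Counting
-/

set_option autoImplicit false

namespace Pool.Agent.Zk87.PL

/-- the dimension of the functions fixed by `ED` -/
def yy (s : ℕ) : ℕ := ∑ i ∈ Finset.range (s + 1), ((s - i) / 2 + 1)

/-- the dimension of the functions fixed by `EB` -/
def tt (s : ℕ) : ℕ := ∑ i ∈ Finset.range (s / 3 + 1), ((s - 3 * i) / 2 + 1)

theorem yy_succ (s : ℕ) : yy (s + 1) = yy s + ((s + 1) / 2 + 1) := by
  unfold yy
  rw [Finset.sum_range_succ']
  simp only [Nat.sub_zero, Nat.add_sub_add_right]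

theorem tt_succ (s : ℕ) : tt (s + 3) = tt s + ((s + 3) / 2 + 1) := by
  unfold tt
  have h : (s + 3) / 3 = s / 3 + 1 := by omega
  rw [h, Finset.sum_range_succ']
  simp only [Nat.mul_zero, Nat.sub_zero]
  congr 1
  refine Finset.sum_congr rfl fun i _ => ?_
  have : s + 3 - 3 * (i + 1) = s - 3 * i := by omega
  rw [this]

theorem count_step (s : ℕ) (hs : 1 ≤ s) (h : yy s ≤ 2 * tt s + (4 * s ^ 2 - 1) / 48) :
    yy (s + 6) ≤ 2 * tt (s + 6) + (4 * (s + 6) ^ 2 - 1) / 48 := by
  have h1 := yy_succ s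
  have h2 := yy_succ (s + 1)
  have h3 := yy_succ (s + 2)
  have h4 := yy_succ (s + 3)
  have h5 := yy_succ (s + 4)
  have h6 := yy_succ (s + 5)
  have h7 := tt_succ s
  have h8 := tt_succ (s + 3)
  have h9 : 4 * (s + 6) ^ 2 - 1 = (4 * s ^ 2 - 1) + 48 * (s + 3) := by
    have : 1 ≤ 4 * s ^ 2 := by nlinarith
    have e : 4 * (s + 6) ^ 2 = 4 * s ^ 2 + 48 * (s + 3) := by ring
    omega
  have h10 : (4 * (s + 6) ^ 2 - 1) / 48 = (4 * s ^ 2 - 1) / 48 + (s + 3) := by
    rw [h9]
    omega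
  rw [h10]
  simp only [show s + 1 + 1 = s + 2 from rfl, show s + 2 + 1 = s + 3 from rfl,
    show s + 3 + 1 = s + 4 from rfl, show s + 4 + 1 = s + 5 from rfl,
    show s + 5 + 1 = s + 6 from rfl] at *
  omega

theorem count_le (s : ℕ) (hs : 1 ≤ s) : yy s ≤ 2 * tt s + (4 * s ^ 2 - 1) / 48 := by
  induction s using Nat.strong_induction_on with
  | _ s ih =>
    by_cases h : s ≤ 6
    · interval_cases s <;> decide
    · obtain ⟨m, rfl⟩ : ∃ m, s = m + 6 := ⟨s - 6, by omega⟩
      exact count_step m (by omega) (ih m (by omega) (by omega))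

/-! ### the upper bound -/

theorem Sg_mon (i j l : ℕ) (a b c : ℚ) : Sg (mon i j l) (a, b, c) =
    ((1 + (-1) ^ i) / 2) * ((1 + (-1) ^ j) / 2) * ((1 + (-1) ^ l) / 2) * (a ^ i * b ^ j * c ^ l) := by
  rw [Sg_apply]
  simp only [mon]
  rw [neg_pow a, neg_pow b, neg_pow c]
  ring

theorem ED_mon_odd {i j l : ℕ} (h : Odd i ∨ Odd j ∨ Odd l) : ED (mon i j l) = 0 := by
  refine fn_ext fun a b c => ?_
  rw [ED_apply, Sg_mon, Sg_mon, Pi.zero_apply]
  rcases h with h | h | h <;> rw [h.neg_one_pow] <;> ring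

theorem ED_mon_sw (i j l : ℕ) : ED (mon i l j) = ED (mon i j l) := by
  refine fn_ext fun a b c => ?_
  rw [ED_apply, ED_apply, Sg_mon, Sg_mon, Sg_mon, Sg_mon]
  ring

/-- the index set of the first average -/
def iY (s : ℕ) : Finset (Σ _ : ℕ, ℕ) := (Finset.range (s + 1)).sigma fun i => Finset.range ((s - i) / 2 + 1)

theorem iY_card (s : ℕ) : (iY s).card = yy s := by
  unfold iY yy
  rw [Finset.card_sigma]
  simp only [Finset.card_range]

open scoped Classical in
theorem YY_le_span (s : ℕ) : YY (2 * s) ≤ Submodule.span ℚ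
    (((iY s).image fun t => ED (mon (2 * t.1) (2 * t.2) (2 * (s - t.1 - t.2)))) : Set Fn) := by
  unfold YY V
  rw [Submodule.map_span, Submodule.span_le]
  rintro _ ⟨f, ⟨i, j, l, h, rfl⟩, rfl⟩
  by_cases ho : Odd i ∨ Odd j ∨ Odd l
  · rw [ED_mon_odd ho]
    exact Submodule.zero_mem _
  · push Not at ho
    obtain ⟨h1, h2, h3⟩ := ho
    rw [Nat.not_odd_iff_even] at h1 h2 h3
    obtain ⟨i, rfl⟩ := h1
    obtain ⟨j, rfl⟩ := h2
    obtain ⟨l, rfl⟩ := h3
    refine Submodule.subset_span ?_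
    rw [Finset.coe_image]
    rcases le_total j l with hjl | hjl
    · refine ⟨⟨i, j⟩, ?_, ?_⟩
      · simp only [iY, Finset.coe_sigma, Finset.coe_range, Set.mem_sigma_iff, Set.mem_Iio]
        omega
      · simp only
        have e1 : 2 * i = i + i := by ring
        have e2 : 2 * j = j + j := by ring
        have e3 : 2 * (s - i - j) = l + l := by omega
        rw [e1, e2, e3]
    · refine ⟨⟨i, l⟩, ?_, ?_⟩
      · simp only [iY, Finset.coe_sigma, Finset.coe_range, Set.mem_sigma_iff, Set.mem_Iio]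
        omega
      · simp only
        have e1 : 2 * i = i + i := by ring
        have e2 : 2 * l = l + l := by ring
        have e3 : 2 * (s - i - l) = j + j := by omega
        rw [e1, e2, e3, ED_mon_sw]

theorem finrank_YY (s : ℕ) : Module.finrank ℚ (YY (2 * s)) ≤ yy s := by
  classical
  let S : Finset Fn := (iY s).image fun t => ED (mon (2 * t.1) (2 * t.2) (2 * (s - t.1 - t.2)))
  have h1 : YY (2 * s) ≤ Submodule.span ℚ (S : Set Fn) := YY_le_span s
  have h2 := Submodule.finrank_mono h1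
  have h3 := finrank_span_finset_le_card (R := ℚ) S
  have h4 : S.card ≤ (iY s).card := Finset.card_image_le
  rw [iY_card] at h4
  exact h2.trans (h3.trans h4)

/-! ### the lower bound -/

/-- the index set of the second average -/
def iB (s : ℕ) : Finset (Σ _ : ℕ, ℕ) :=
  (Finset.range (s / 3 + 1)).sigma fun i => Finset.range ((s - 3 * i) / 2 + 1)

theorem iB_card (s : ℕ) : (iB s).card = tt s := by
  unfold iB tt
  rw [Finset.card_sigma]
  simp only [Finset.card_range]

/-- the coefficients of the symmetrized monomial -/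
noncomputable def Fs (i j l : ℕ) : ℕ × ℕ × ℕ →₀ ℚ :=
  (1 / 6 : ℚ) • (Finsupp.single (i, j, l) 1 + Finsupp.single (i, l, j) 1 +
    Finsupp.single (j, l, i) 1 + Finsupp.single (j, i, l) 1 +
    Finsupp.single (l, i, j) 1 + Finsupp.single (l, j, i) 1)

theorem Ps_Fs (i j l : ℕ) : Ps (Fs (2 * i) (2 * j) (2 * l)) = EB (mon (2 * i) (2 * j) (2 * l)) := by
  refine fn_ext fun a b c => ?_
  rw [EB_apply]
  simp only [Sg_mon]
  rw [(even_two_mul i).neg_one_pow, (even_two_mul j).neg_one_pow, (even_two_mul l).neg_one_pow]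
  simp only [Fs, Ps, map_smul, map_add, Finsupp.linearCombination_single, Pi.smul_apply,
    Pi.add_apply, mon, smul_eq_mul, one_mul]
  ring

theorem Fs_same (i j l : ℕ) : Fs i j l (i, j, l) ≠ 0 := by
  unfold Fs
  simp only [Finsupp.smul_apply, Finsupp.add_apply, smul_eq_mul]
  have h : ∀ t : ℕ × ℕ × ℕ, (0 : ℚ) ≤ (Finsupp.single t (1 : ℚ)) (i, j, l) := by
    intro t
    rw [Finsupp.single_apply]
    split_ifs <;> norm_num
  have h1 : (Finsupp.single (i, j, l) (1 : ℚ)) (i, j, l) = 1 := Finsupp.single_eq_same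
  have a := h (i, l, j)
  have b := h (j, l, i)
  have c := h (j, i, l)
  have d := h (l, i, j)
  have e := h (l, j, i)
  rw [h1]
  intro h0
  linarith

theorem Fs_diff {i j l i' j' l' : ℕ} (h1 : i ≤ j) (h2 : j ≤ l) (h1' : i' ≤ j') (h2' : j' ≤ l')
    (hne : ¬ (i = i' ∧ j = j' ∧ l = l')) : Fs i j l (i', j', l') = 0 := by
  unfold Fs
  simp only [Finsupp.smul_apply, Finsupp.add_apply, smul_eq_mul, Finsupp.single_apply,
    Prod.mk.injEq]
  rw [if_neg (by omega), if_neg (by omega), if_neg (by omega), if_neg (by omega),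
    if_neg (by omega), if_neg (by omega)]
  ring

theorem finrank_BB (s : ℕ) : tt s ≤ Module.finrank ℚ (BB (2 * s)) := by
  classical
  have hm : ∀ t ∈ iB s, 3 * t.1 + 2 * t.2 ≤ s := by
    intro t ht
    simp only [iB, Finset.mem_sigma, Finset.mem_range] at ht
    omega
  let v : iB s → BB (2 * s) := fun t =>
    ⟨EB (mon (2 * t.1.1) (2 * (t.1.1 + t.1.2)) (2 * (s - 2 * t.1.1 - t.1.2))),
      mon (2 * t.1.1) (2 * (t.1.1 + t.1.2)) (2 * (s - 2 * t.1.1 - t.1.2)),
      mon_mem' (by have := hm t.1 t.2; omega), rfl⟩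
  have hv : LinearIndependent ℚ v := by
    rw [Fintype.linearIndependent_iff]
    intro g hg t0
    have h1 : Ps (∑ t, g t • Fs (2 * t.1.1) (2 * (t.1.1 + t.1.2)) (2 * (s - 2 * t.1.1 - t.1.2)))
        = 0 := by
      rw [map_sum]
      have h2 := congrArg Subtype.val hg
      rw [Submodule.coe_sum] at h2
      rw [← Submodule.coe_zero (p := BB (2 * s)), ← h2]
      refine Finset.sum_congr rfl fun t _ => ?_
      rw [map_smul, Ps_Fs]
      rfl
    have h3 := Ps_inj _ h1
    have h4 := DFunLike.congr_fun h3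
      (2 * t0.1.1, 2 * (t0.1.1 + t0.1.2), 2 * (s - 2 * t0.1.1 - t0.1.2))
    rw [Finsupp.finsetSum_apply, Finset.sum_eq_single t0] at h4
    · rw [Finsupp.smul_apply, Finsupp.zero_apply, smul_eq_mul] at h4
      exact (mul_eq_zero.1 h4).resolve_right (Fs_same _ _ _)
    · intro t _ hne
      have a := hm t.1 t.2
      have b := hm t0.1 t0.2
      rw [Finsupp.smul_apply, Fs_diff (by omega) (by omega) (by omega) (by omega), smul_zero]
      intro hc
      apply hne
      refine Subtype.ext (Sigma.ext (by omega) (heq_of_eq (by omega)))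
    · intro h
      exact absurd (Finset.mem_univ _) h
  have h5 := hv.fintype_card_le_finrank
  rw [Fintype.card_coe, iB_card] at h5
  exact h5

/-- the dimension bound -/
theorem finrank_XX3_le (s : ℕ) (hs : 1 ≤ s) :
    Module.finrank ℚ (XX3 (2 * s)) ≤ (4 * s ^ 2 - 1) / 48 := by
  have h1 := finrank_XX3 (r := 2 * s) (by omega)
  have h2 := finrank_YY s
  have h3 := finrank_BB s
  have h4 := count_le s hs
  omega

end Pool.Agent.Zk87.PL
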