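import Pool.Agent.H777R4.DM.Basic

/-!
# Values of the letter parts of a Lie element

`ev l u` is the value at the list `l = [z₀, …, z_k]` of the word `u = x₁^{b₀} x₀ ⋯ x₀ x₁^{b_k}`, that is
`z₀^{b₀} ⋯ z_k^{b_k}`, and zero for the words with a different number of letters `x₀`; `gf ψ l` is the
linear extension.  For elements of the free Lie algebra `gf` is invariant under translations and is
killed by the shuffles of one step.
-/

set_option autoImplicit false

namespace Pool.Agent.Zk87.PL

open Pool.Agent.H777R4.DM

attribute [local instance 100] LieRing.ofAssociativeRing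

/-- the value of a word at a list of rational numbers -/
def ev : List ℚ → List (Fin 2) → ℚ
  | [], _ => 0
  | [_], [] => 1
  | _ :: _ :: _, [] => 0
  | z :: l, i :: u => if i = 1 then z * ev (z :: l) u else ev l u

/-- the generating function of the letter parts -/
noncomputable def gf (ψ : A) (l : List ℚ) : ℚ := lext (ev l) ψ

@[simp] theorem ev_nil (u : List (Fin 2)) : ev [] u = 0 := by
  cases u <;> rfl

@[simp] theorem ev_one (z : ℚ) (l : List ℚ) (u : List (Fin 2)) :
    ev (z :: l) (1 :: u) = z * ev (z :: l) u := by
  cases l <;> simp [ev]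

@[simp] theorem ev_zero (z : ℚ) (l : List ℚ) (u : List (Fin 2)) :
    ev (z :: l) (0 :: u) = ev l u := by
  cases l <;> simp [ev]

theorem ev_long (l : List ℚ) (h : 2 ≤ l.length) : ev l [] = 0 := by
  match l, h with
  | _ :: _ :: _, _ => rfl

/-! ### the two-level representation -/

/-- functions on lists, at two levels -/
abbrev FF : Type := (List ℚ → ℚ) × (List ℚ → ℚ)

/-- the operator of `x₁` -/
def X1 (c : ℚ) (F : FF) : FF :=
  (fun l => match l with | [] => 0 | z :: t => z * F.1 (z :: t),
   fun l => match l with | [] => c * F.2 [] | z :: t => (z + c) * F.2 (z :: t))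

/-- the operator of `x₀` -/
def X0 (F : FF) : FF :=
  (fun l => match l with | [] => F.2 [] | z :: t => F.1 t + F.2 (z :: t),
   fun l => match l with | [] => 0 | _ :: t => F.2 t)

/-- the operator of a letter -/
noncomputable def XX (c : ℚ) (i : Fin 2) : Module.End ℚ FF where
  toFun := fun F => if i = 1 then X1 c F else X0 F
  map_add' := by
    intro F G
    by_cases h : i = 1
    · simp only [h, if_true]
      refine Prod.ext (funext fun l => ?_) (funext fun l => ?_) <;>
        cases l <;> simp [X1] <;> ring
    · simp only [h, if_false]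
      refine Prod.ext (funext fun l => ?_) (funext fun l => ?_) <;>
        cases l <;> simp [X0] <;> ring
  map_smul' := by
    intro a F
    by_cases h : i = 1
    · simp only [h, if_true, RingHom.id_apply]
      refine Prod.ext (funext fun l => ?_) (funext fun l => ?_) <;>
        cases l <;> simp [X1] <;> ring
    · simp only [h, if_false, RingHom.id_apply]
      refine Prod.ext (funext fun l => ?_) (funext fun l => ?_) <;>
        cases l <;> simp [X0] <;> ring

/-- the representation -/
noncomputable def Rp (c : ℚ) : A →ₐ[ℚ] Module.End ℚ FF :=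
  MonoidAlgebra.lift ℚ (Module.End ℚ FF) (FreeMonoid (Fin 2)) (FreeMonoid.lift (XX c))

theorem Rp_nil (c : ℚ) : Rp c (wd []) = 1 := by
  unfold Rp wd
  rw [MonoidAlgebra.of_apply, MonoidAlgebra.lift_single, one_smul]
  exact map_one _

theorem Rp_cons (c : ℚ) (i : Fin 2) (u : List (Fin 2)) :
    Rp c (wd (i :: u)) = XX c i * Rp c (wd u) := by
  unfold Rp wd
  rw [MonoidAlgebra.of_apply, MonoidAlgebra.of_apply, MonoidAlgebra.lift_single,
    MonoidAlgebra.lift_single, one_smul, one_smul, FreeMonoid.ofList_cons, map_mul,
    FreeMonoid.lift_eval_of]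

theorem Rp_x (c : ℚ) (i : Fin 2) : Rp c (x i) = XX c i := by
  have := Rp_cons c i []
  rw [Rp_nil, mul_one] at this
  exact this

/-- the final vector at the second level -/
def f0 : List ℚ → ℚ := fun l => if l.length = 1 then 1 else 0

/-- the lists obtained from `[t₀, …]` by one step `c` -/
def cuts (c : ℚ) : List ℚ → List (List ℚ)
  | [] => []
  | z :: l => (z :: (z + c) :: l.map (· + c)) :: (cuts c l).map (fun t => z :: t)

theorem ev_len1 (l : List ℚ) : ev l [] = f0 l := by
  match l with
  | [] => rfl
  | [_] => rfl
  | _ :: _ :: _ => rfl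

theorem Rp_second (c : ℚ) (u : List (Fin 2)) : ∀ (g : List ℚ → ℚ) (l : List ℚ),
    (Rp c (wd u) (g, f0)).2 l = ev (l.map (· + c)) u := by
  induction u with
  | nil =>
    intro g l
    rw [Rp_nil, ev_len1]
    simp [f0]
  | cons i u ih =>
    intro g l
    rw [Rp_cons, Module.End.mul_apply]
    have hn := ih g []
    rw [List.map_nil, ev_nil] at hn
    by_cases h : i = 1
    · subst h
      cases l with
      | nil => simp [XX, X1, hn]
      | cons z t =>
        simp only [XX, if_true, LinearMap.coe_mk, AddHom.coe_mk, X1, List.map_cons, ev_one]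
        rw [ih g (z :: t)]
        simp
    · have h0 : i = 0 := by omega
      subst h0
      cases l with
      | nil => simp [XX, X0]
      | cons z t =>
        simp only [XX, zero_ne_one, if_false, LinearMap.coe_mk, AddHom.coe_mk, X0, List.map_cons,
          ev_zero]
        exact ih g t

theorem sum_map_mul (z : ℚ) (L : List (List ℚ)) (F : List ℚ → ℚ) :
    (L.map fun t => z * F t).sum = z * (L.map F).sum := by
  induction L with
  | nil => simp
  | cons a L ih => simp [ih]; ring

theorem Rp_first (c : ℚ) (u : List (Fin 2)) : ∀ (l : List ℚ),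
    (Rp c (wd u) (0, f0)).1 l = ((cuts c l).map fun t => ev t u).sum := by
  induction u with
  | nil =>
    intro l
    rw [Rp_nil]
    have h : ∀ l : List ℚ, ∀ t ∈ cuts c l, ev t [] = 0 := by
      intro l
      induction l with
      | nil => intro t ht; simp [cuts] at ht
      | cons z l ih =>
        intro t ht
        rw [cuts, List.mem_cons] at ht
        rcases ht with rfl | ht
        · rfl
        · rw [List.mem_map] at ht
          obtain ⟨s, hs, rfl⟩ := ht
          cases s with
          | nil =>
            exfalso
            cases l with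
            | nil => simp [cuts] at hs
            | cons y l => simp [cuts] at hs
          | cons y s => rfl
    rw [List.sum_eq_zero]
    · rfl
    · intro q hq
      rw [List.mem_map] at hq
      obtain ⟨t, ht, rfl⟩ := hq
      exact h l t ht
  | cons i u ih =>
    intro l
    rw [Rp_cons, Module.End.mul_apply]
    by_cases h : i = 1
    · subst h
      cases l with
      | nil => simp [XX, X1, cuts]
      | cons z t =>
        simp only [XX, if_true, LinearMap.coe_mk, AddHom.coe_mk, X1]
        rw [ih (z :: t)]
        simp only [cuts, List.map_cons, List.sum_cons, ev_one, List.map_map, Function.comp_def]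
        rw [sum_map_mul]
        ring
    · have h0 : i = 0 := by omega
      subst h0
      cases l with
      | nil =>
        have hn := Rp_second c u 0 []
        rw [List.map_nil, ev_nil] at hn
        simp [XX, X0, cuts, hn]
      | cons z t =>
        simp only [XX, zero_ne_one, if_false, LinearMap.coe_mk, AddHom.coe_mk, X0]
        rw [ih t, Rp_second]
        simp only [cuts, List.map_cons, List.sum_cons, ev_zero, List.map_map, Function.comp_def]
        ring

theorem Rp_base (c : ℚ) (u : List (Fin 2)) : ∀ (l : List ℚ),
    (Rp c (wd u) (f0, 0)).1 l = ev l u ∧ (Rp c (wd u) (f0, 0)).2 l = 0 := by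
  induction u with
  | nil =>
    intro l
    rw [Rp_nil, ev_len1]
    exact ⟨rfl, rfl⟩
  | cons i u ih =>
    intro l
    rw [Rp_cons, Module.End.mul_apply]
    by_cases h : i = 1
    · subst h
      cases l with
      | nil => simp [XX, X1, (ih []).2]
      | cons z t =>
        simp only [XX, if_true, LinearMap.coe_mk, AddHom.coe_mk, X1, ev_one]
        rw [(ih (z :: t)).1, (ih (z :: t)).2]
        simp
    · have h0 : i = 0 := by omega
      subst h0
      cases l with
      | nil => simp [XX, X0, (ih []).2]
      | cons z t =>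
        simp only [XX, zero_ne_one, if_false, LinearMap.coe_mk, AddHom.coe_mk, X0, ev_zero]
        rw [(ih t).1, (ih (z :: t)).2, (ih t).2]
        simp

/-- the shape of the operators of Lie elements -/
def Shape (T : Module.End ℚ FF) : Prop :=
  ∃ (M : Module.End ℚ (List ℚ → ℚ)) (a b : ℚ), ∀ F : FF, T F = (M F.1 + a • F.2, M F.2 + b • F.2)

/-- multiplication by the first entry -/
def M1 : Module.End ℚ (List ℚ → ℚ) where
  toFun := fun g l => match l with | [] => 0 | z :: t => z * g (z :: t)
  map_add' := by
    intro F G
    funext l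
    cases l <;> simp <;> ring
  map_smul' := by
    intro a F
    funext l
    cases l <;> simp <;> ring

/-- removal of the first entry -/
def M0 : Module.End ℚ (List ℚ → ℚ) where
  toFun := fun g l => match l with | [] => 0 | _ :: t => g t
  map_add' := by
    intro F G
    funext l
    cases l <;> simp
  map_smul' := by
    intro a F
    funext l
    cases l <;> simp

theorem shape_XX (c : ℚ) (i : Fin 2) : Shape (XX c i) := by
  by_cases h : i = 1
  · subst h
    refine ⟨M1, 0, c, fun F => ?_⟩
    refine Prod.ext (funext fun l => ?_) (funext fun l => ?_) <;> cases l <;>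
      simp [XX, X1, M1] <;> ring
  · have h0 : i = 0 := by omega
    subst h0
    refine ⟨M0, 1, 0, fun F => ?_⟩
    refine Prod.ext (funext fun l => ?_) (funext fun l => ?_) <;> cases l <;>
      simp [XX, X0, M0]

theorem shape_lie (c : ℚ) {ψ : A} (h : ψ ∈ LieX) : Shape (Rp c ψ) := by
  unfold LieX at h
  induction h using LieSubalgebra.lieSpan_induction with
  | mem y hy =>
    rcases hy with rfl | rfl
    · rw [Rp_x]; exact shape_XX c 0
    · rw [Rp_x]; exact shape_XX c 1
  | zero =>
    refine ⟨0, 0, 0, fun F => ?_⟩
    rw [map_zero]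
    simp [Prod.ext_iff]
  | add y z _ _ hy hz =>
    obtain ⟨M, a, b, hM⟩ := hy
    obtain ⟨M', a', b', hM'⟩ := hz
    refine ⟨M + M', a + a', b + b', fun F => ?_⟩
    rw [map_add, LinearMap.add_apply, hM, hM']
    refine Prod.ext ?_ ?_
    · simp only [Prod.fst_add, LinearMap.add_apply, add_smul]; abel
    · simp only [Prod.snd_add, LinearMap.add_apply, add_smul]; abel
  | smul r y _ hy =>
    obtain ⟨M, a, b, hM⟩ := hy
    refine ⟨r • M, r * a, r * b, fun F => ?_⟩
    rw [map_smul, LinearMap.smul_apply, hM]
    refine Prod.ext ?_ ?_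
    · simp only [Prod.smul_fst, LinearMap.smul_apply, smul_add, mul_smul]
    · simp only [Prod.smul_snd, LinearMap.smul_apply, smul_add, mul_smul]
  | lie y z _ _ hy hz =>
    obtain ⟨M, a, b, hM⟩ := hy
    obtain ⟨M', a', b', hM'⟩ := hz
    refine ⟨M * M' - M' * M, a * b' - a' * b, 0, fun F => ?_⟩
    rw [LieRing.of_associative_ring_bracket, map_sub, map_mul, map_mul, LinearMap.sub_apply,
      Module.End.mul_apply, Module.End.mul_apply, hM, hM', hM, hM']
    refine Prod.ext ?_ ?_
    · simp only [Prod.fst_sub, LinearMap.sub_apply, Module.End.mul_apply, map_add, map_smul,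
        smul_add, sub_smul, mul_smul]
      abel
    · simp only [Prod.snd_sub, LinearMap.sub_apply, Module.End.mul_apply, map_add, map_smul,
        smul_add, zero_smul, add_zero]
      rw [smul_comm b b']
      abel

/-! ### the two relations -/

theorem gf_eq_first (c : ℚ) (ψ : A) (l : List ℚ) :
    (Rp c ψ (f0, 0)).1 l = gf ψ l := by
  let F : A →ₗ[ℚ] ℚ :=
    { toFun := fun φ => (Rp c φ (f0, 0)).1 l
      map_add' := by intro a b; simp
      map_smul' := by intro a b; simp }
  have h : F = lext (ev l) := by
    refine lin_ext fun u => ?_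
    rw [lext_wd]
    exact (Rp_base c u l).1
  exact LinearMap.congr_fun h ψ

theorem gf_eq_second (c : ℚ) (ψ : A) (l : List ℚ) :
    (Rp c ψ (0, f0)).2 l = gf ψ (l.map (· + c)) := by
  let F : A →ₗ[ℚ] ℚ :=
    { toFun := fun φ => (Rp c φ (0, f0)).2 l
      map_add' := by intro a b; simp
      map_smul' := by intro a b; simp }
  have h : F = lext (ev (l.map (· + c))) := by
    refine lin_ext fun u => ?_
    rw [lext_wd]
    exact Rp_second c u 0 l
  exact LinearMap.congr_fun h ψ

theorem gf_sum (L : List (List ℚ)) (ψ : A) :
    (L.map fun t => gf ψ t).sum = lext (fun u => (L.map fun t => ev t u).sum) ψ := by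
  induction L with
  | nil =>
    have h : (lext (fun _ : List (Fin 2) => (0 : ℚ)) : A →ₗ[ℚ] ℚ) = 0 := by
      refine lin_ext fun u => ?_
      rw [lext_wd]; rfl
    simp [h]
  | cons a L ih =>
    have h : (lext (fun u => (((a :: L).map fun t => ev t u).sum)) : A →ₗ[ℚ] ℚ) =
        lext (ev a) + lext (fun u => (L.map fun t => ev t u).sum) := by
      refine lin_ext fun u => ?_
      rw [lext_wd, LinearMap.add_apply, lext_wd, lext_wd]
      simp
    rw [h, List.map_cons, List.sum_cons, ih]
    rfl

theorem gf_cuts_first (c : ℚ) (ψ : A) (l : List ℚ) :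
    (Rp c ψ (0, f0)).1 l = ((cuts c l).map fun t => gf ψ t).sum := by
  rw [gf_sum]
  let F : A →ₗ[ℚ] ℚ :=
    { toFun := fun φ => (Rp c φ (0, f0)).1 l
      map_add' := by intro a b; simp
      map_smul' := by intro a b; simp }
  have h : F = lext (fun u => ((cuts c l).map fun t => ev t u).sum) := by
    refine lin_ext fun u => ?_
    rw [lext_wd]
    exact Rp_first c u l
  exact LinearMap.congr_fun h ψ

/-- **Shuffles of one step.** -/
theorem gf_cuts {ψ : A} (h : ψ ∈ LieX) (c : ℚ) (l : List ℚ) (hl : 2 ≤ l.length) :
    ((cuts c l).map fun t => gf ψ t).sum = 0 := by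
  obtain ⟨M, a, b, hM⟩ := shape_lie c h
  rw [← gf_cuts_first, hM]
  have : f0 l = 0 := by
    unfold f0
    rw [if_neg (by omega)]
  simp [this]

/-- **Translations.** -/
theorem gf_shift {ψ : A} (h : ψ ∈ LieX) (c : ℚ) (l : List ℚ) (hl : 2 ≤ l.length) :
    gf ψ (l.map (· + c)) = gf ψ l := by
  obtain ⟨M, a, b, hM⟩ := shape_lie c h
  have h0 : f0 l = 0 := by
    unfold f0
    rw [if_neg (by omega)]
  rw [← gf_eq_second, ← gf_eq_first c, hM, hM]
  simp [h0]

end Pool.Agent.Zk87.PL
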