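import Pool.Agent.Zk87.PL.Ev
import Pool.Agent.R241.DL7

/-!
# The generating function as a polynomial in the block lengths
-/

set_option autoImplicit false

namespace Pool.Agent.Zk87.PL

open Pool.Agent.H777R4.DM
open Pool.Agent.R241.DL (blk)

attribute [local instance 100] LieRing.ofAssociativeRing

/-- the monomial of a list of exponents -/
def pr : List ℚ → List ℕ → ℚ
  | [], [] => 1
  | z :: l, b :: v => z ^ b * pr l v
  | _, _ => 0

/-- the block lengths of a word -/
def bl : List (Fin 2) → List ℕ
  | [] => [0]
  | i :: u => if i = 1 then (match bl u with | [] => [] | b :: v => (b + 1) :: v) else 0 :: bl u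

theorem bl_ne (u : List (Fin 2)) : bl u ≠ [] := by
  induction u with
  | nil => simp [bl]
  | cons i u ih =>
    rw [bl]
    split_ifs with h
    · cases hb : bl u with
      | nil => exact absurd hb ih
      | cons b v => simp
    · simp

theorem ev_eq_pr (u : List (Fin 2)) : ∀ l : List ℚ, ev l u = pr l (bl u) := by
  induction u with
  | nil =>
    intro l
    match l with
    | [] => rfl
    | [z] => simp [ev, bl, pr]
    | z :: y :: l => simp [ev, bl, pr]
  | cons i u ih =>
    intro l
    by_cases h : i = 1
    · subst h
      cases hb : bl u with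
      | nil => exact absurd hb (bl_ne u)
      | cons b v =>
        rw [bl, if_pos rfl, hb]
        cases l with
        | nil => simp [pr]
        | cons z l =>
          rw [ev_one, ih, hb, pr, pr, pow_succ]
          ring
    · have h0 : i = 0 := by omega
      subst h0
      rw [bl, if_neg (by decide)]
      cases l with
      | nil => simp [pr]
      | cons z l => rw [ev_zero, ih, pr]; ring

theorem pr_len (l : List ℚ) : ∀ v : List ℕ, l.length ≠ v.length → pr l v = 0 := by
  induction l with
  | nil =>
    intro v h
    cases v with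
    | nil => exact absurd rfl h
    | cons b v => rfl
  | cons z l ih =>
    intro v h
    cases v with
    | nil => rfl
    | cons b v =>
      rw [pr, ih v (by simpa using h), mul_zero]

theorem bl_one (u : List (Fin 2)) : bl (1 :: u) = match bl u with
    | [] => [] | b :: v => (b + 1) :: v := by
  rw [bl, if_pos rfl]

theorem bl_zero (u : List (Fin 2)) : bl (0 :: u) = 0 :: bl u := by
  rw [bl, if_neg (by decide)]

theorem bl_rep (a : ℕ) (u : List (Fin 2)) (b : ℕ) (v : List ℕ) (h : bl u = b :: v) :
    bl (List.replicate a 1 ++ u) = (a + b) :: v := by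
  induction a with
  | zero => simpa using h
  | succ a ih =>
    rw [List.replicate_succ, List.cons_append, bl_one, ih]
    simp only
    congr 1
    omega

theorem bl_blk (L : List ℕ) (hL : L ≠ []) : bl (blk L) = L := by
  induction L with
  | nil => exact absurd rfl hL
  | cons a L ih =>
    cases L with
    | nil =>
      rw [blk]
      have := bl_rep a [] 0 [] rfl
      simpa using this
    | cons b L =>
      rw [blk]
      have h := ih (by simp)
      exact bl_rep a _ 0 (b :: L) (by rw [bl_zero, h])

theorem blk_succ (b : ℕ) (v : List ℕ) : blk ((b + 1) :: v) = 1 :: blk (b :: v) := by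
  cases v with
  | nil => rfl
  | cons c v => rfl

theorem blk_bl (u : List (Fin 2)) : blk (bl u) = u := by
  induction u with
  | nil => rfl
  | cons i u ih =>
    by_cases h : i = 1
    · subst h
      rw [bl_one]
      cases hb : bl u with
      | nil => exact absurd hb (bl_ne u)
      | cons b v =>
        simp only
        rw [blk_succ, ← hb, ih]
    · have h0 : i = 0 := by omega
      subst h0
      rw [bl_zero]
      cases hb : bl u with
      | nil => exact absurd hb (bl_ne u)
      | cons b v =>
        rw [blk, ← hb, ih]
        rfl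

theorem bl_length (u : List (Fin 2)) : (bl u).length = u.count 0 + 1 := by
  induction u with
  | nil => rfl
  | cons i u ih =>
    by_cases h : i = 1
    · subst h
      rw [bl_one]
      cases hb : bl u with
      | nil => exact absurd hb (bl_ne u)
      | cons b v =>
        rw [hb] at ih
        simp only [List.length_cons] at ih ⊢
        rw [ih, List.count_cons_of_ne (by decide)]
    · have h0 : i = 0 := by omega
      subst h0
      rw [bl_zero, List.length_cons, ih, List.count_cons_self]

theorem bl_sum (u : List (Fin 2)) : (bl u).sum + u.count 0 = u.length := by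
  induction u with
  | nil => rfl
  | cons i u ih =>
    by_cases h : i = 1
    · subst h
      rw [bl_one]
      cases hb : bl u with
      | nil => exact absurd hb (bl_ne u)
      | cons b v =>
        rw [hb] at ih
        simp only [List.sum_cons, List.length_cons] at ih ⊢
        rw [List.count_cons_of_ne (by decide)]
        omega
    · have h0 : i = 0 := by omega
      subst h0
      rw [bl_zero, List.sum_cons, List.length_cons, List.count_cons_self]
      omega

/-- a word is determined by its coefficients as a sum over the support -/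
theorem lext_congr {ψ : A} {F G : List (Fin 2) → ℚ} (h : ∀ u, co ψ u ≠ 0 → F u = G u) :
    lext F ψ = lext G ψ := by
  unfold lext
  simp only [LinearMap.comp_apply]
  rw [Finsupp.linearCombination_apply, Finsupp.linearCombination_apply]
  refine Finsupp.sum_congr fun m hm => ?_
  have : co ψ (FreeMonoid.toList m) ≠ 0 := by
    unfold co
    exact Finsupp.mem_support_iff.1 hm
  rw [h _ this]

theorem pr_ofFn {m : ℕ} (z : Fin m → ℚ) (b : Fin m → ℕ) :
    pr (List.ofFn z) (List.ofFn b) = ∏ i, z i ^ b i := by
  induction m with
  | zero => simp [pr]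
  | succ m ih =>
    rw [List.ofFn_succ, List.ofFn_succ, pr, ih, Fin.prod_univ_succ]

theorem co_lext (ψ : A) (w : List (Fin 2)) : co ψ w = lext (fun u => if u = w then (1 : ℚ) else 0) ψ := by
  let F : A →ₗ[ℚ] ℚ :=
    { toFun := fun φ => co φ w
      map_add' := by intro a b; simp [co_add]
      map_smul' := by intro a b; simp [co_smul] }
  have h : F = lext (fun u => if u = w then (1 : ℚ) else 0) := by
    refine lin_ext fun u => ?_
    rw [lext_wd]
    exact co_wd u w
  exact LinearMap.congr_fun h ψ

/-- the generating function as a sum over the exponents -/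
theorem gf_formula {ψ : A} {N m : ℕ} (hN : LenHom ψ N) (hm : 0 < m) (z : Fin m → ℚ) :
    gf ψ (List.ofFn z) = ∑ b : Fin m → Fin (N + 1),
      co ψ (blk (List.ofFn fun i => (b i : ℕ))) * ∏ i, z i ^ (b i : ℕ) := by
  have e : (∑ b : Fin m → Fin (N + 1),
      co ψ (blk (List.ofFn fun i => (b i : ℕ))) * ∏ i, z i ^ (b i : ℕ)) =
      lext (fun u => ∑ b : Fin m → Fin (N + 1),
        (if u = blk (List.ofFn fun i => (b i : ℕ)) then (1 : ℚ) else 0) *
          ∏ i, z i ^ (b i : ℕ)) ψ := by
    have h : (lext (fun u => ∑ b : Fin m → Fin (N + 1),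
        (if u = blk (List.ofFn fun i => (b i : ℕ)) then (1 : ℚ) else 0) *
          ∏ i, z i ^ (b i : ℕ)) : A →ₗ[ℚ] ℚ) = ∑ b : Fin m → Fin (N + 1),
        (∏ i, z i ^ (b i : ℕ)) •
          (lext (fun u => if u = blk (List.ofFn fun i => (b i : ℕ)) then (1 : ℚ) else 0) :
            A →ₗ[ℚ] ℚ) := by
      refine lin_ext fun u => ?_
      rw [lext_wd, LinearMap.sum_apply]
      refine Finset.sum_congr rfl fun b _ => ?_
      rw [LinearMap.smul_apply, lext_wd, smul_eq_mul, mul_comm]
    rw [h, LinearMap.sum_apply]
    refine Finset.sum_congr rfl fun b _ => ?_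
    rw [LinearMap.smul_apply, ← co_lext, smul_eq_mul, mul_comm]
  rw [e]
  refine lext_congr fun u hu => ?_
  have hl := hN u hu
  rw [ev_eq_pr]
  have hofn : ∀ b : Fin m → ℕ, List.ofFn b ≠ [] := by
    intro b h
    have := congrArg List.length h
    rw [List.length_ofFn] at this
    simp at this
    omega
  by_cases hlen : (bl u).length = m
  · subst hlen
    have hb : ∀ i : Fin (bl u).length, (bl u).get i < N + 1 := by
      intro i
      have h1 := List.single_le_sum (l := bl u) (fun _ _ => Nat.zero_le _) _ (List.get_mem _ i)
      have h2 := bl_sum u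
      omega
    have key : List.ofFn (fun i => (((⟨(bl u).get i, hb i⟩ : Fin (N + 1))) : ℕ)) = bl u := by
      simp only
      exact List.ofFn_get _
    rw [Finset.sum_eq_single (fun i => (⟨(bl u).get i, hb i⟩ : Fin (N + 1)))]
    · rw [key, blk_bl, if_pos rfl, one_mul]
      have h3 := pr_ofFn z (fun i => (bl u).get i)
      rw [List.ofFn_get] at h3
      exact h3
    · intro b _ hne
      rw [if_neg, zero_mul]
      intro h
      apply hne
      have h4 := congrArg bl h
      rw [bl_blk _ (hofn _)] at h4
      have h5 := List.ofFn_injective (key.trans h4)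
      funext i
      have := congrFun h5 i
      exact Fin.ext this.symm
    · intro h
      exact absurd (Finset.mem_univ _) h
  · rw [pr_len _ _ (by rw [List.length_ofFn]; exact fun h => hlen h.symm), Finset.sum_eq_zero]
    intro b _
    rw [if_neg, zero_mul]
    intro h
    apply hlen
    have h4 := congrArg bl h
    rw [bl_blk _ (hofn _)] at h4
    rw [h4, List.length_ofFn]

/-- permutations of the arguments -/
theorem gf_perm {ψ : A} {N m : ℕ} (hN : LenHom ψ N) (hm : 0 < m) (σ : Equiv.Perm (Fin m))
    (z : Fin m → ℚ) :
    gf ψ (List.ofFn (z ∘ σ)) = ∑ b : Fin m → Fin (N + 1),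
      co ψ (blk (List.ofFn fun i => (b (σ i) : ℕ))) * ∏ i, z i ^ (b i : ℕ) := by
  rw [gf_formula hN hm]
  rw [← Equiv.sum_comp (Equiv.arrowCongr σ (Equiv.refl (Fin (N + 1)))).symm]
  refine Finset.sum_congr rfl fun b _ => ?_
  have h1 : ∀ i, (Equiv.arrowCongr σ (Equiv.refl (Fin (N + 1)))).symm b i = b (σ i) := by
    intro i
    simp [Equiv.arrowCongr]
  simp only [h1, Function.comp]
  congr 1
  exact Equiv.prod_comp σ (fun i => z i ^ (b i : ℕ))

/-- a relation between permuted coefficients gives the one of the functions -/
theorem gf_rel {ψ : A} {N m : ℕ} (hN : LenHom ψ N) (hm : 0 < m) {ι : Type} (s : Finset ι)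
    (a : ι → ℚ) (σ : ι → Equiv.Perm (Fin m))
    (h : ∀ b : Fin m → ℕ, ∑ j ∈ s, a j * co ψ (blk (List.ofFn fun i => b (σ j i))) = 0)
    (z : Fin m → ℚ) : ∑ j ∈ s, a j * gf ψ (List.ofFn (z ∘ σ j)) = 0 := by
  simp only [gf_perm hN hm, Finset.mul_sum]
  rw [Finset.sum_comm]
  refine Finset.sum_eq_zero fun b _ => ?_
  have := h (fun i => (b i : ℕ))
  have e : ∀ j ∈ s, a j * (co ψ (blk (List.ofFn fun i => (b (σ j i) : ℕ))) *
      ∏ i, z i ^ (b i : ℕ)) =
      (a j * co ψ (blk (List.ofFn fun i => (b (σ j i) : ℕ)))) * ∏ i, z i ^ (b i : ℕ) := by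
    intro j _
    ring
  rw [Finset.sum_congr rfl e, ← Finset.sum_mul, this, zero_mul]

/-- the function determines the coefficients -/
theorem gf_inj {ψ : A} {N m : ℕ} (hN : LenHom ψ N) (hm : 0 < m)
    (h : ∀ z : Fin m → ℚ, gf ψ (List.ofFn z) = 0) (u : List (Fin 2)) (hu : u.count 0 + 1 = m) :
    co ψ u = 0 := by
  by_contra hne
  have hl := hN u hne
  let p : MvPolynomial (Fin m) ℚ := ∑ b : Fin m → Fin (N + 1),
    MvPolynomial.monomial (Finsupp.equivFunOnFinite.symm fun i => (b i : ℕ))
      (co ψ (blk (List.ofFn fun i => (b i : ℕ))))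
  have hp : p = 0 := by
    refine MvPolynomial.funext fun z => ?_
    rw [map_zero, ← h z, gf_formula hN hm]
    simp only [p, map_sum]
    refine Finset.sum_congr rfl fun b _ => ?_
    rw [MvPolynomial.eval_monomial]
    congr 1
    rw [Finsupp.prod_fintype]
    · rfl
    · intro i
      exact pow_zero _
  have hlen : (bl u).length = m := by rw [bl_length]; exact hu
  subst hlen
  have hb : ∀ i : Fin (bl u).length, (bl u).get i < N + 1 := by
    intro i
    have h1 := List.single_le_sum (l := bl u) (fun _ _ => Nat.zero_le _) _ (List.get_mem _ i)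
    have h2 := bl_sum u
    omega
  have hc := congrArg (MvPolynomial.coeff
    (Finsupp.equivFunOnFinite.symm fun i => (bl u).get i)) hp
  rw [MvPolynomial.coeff_zero] at hc
  simp only [p, MvPolynomial.coeff_sum] at hc
  rw [Finset.sum_eq_single (fun i => (⟨(bl u).get i, hb i⟩ : Fin (N + 1)))] at hc
  · rw [MvPolynomial.coeff_monomial, if_pos rfl] at hc
    have key : List.ofFn (fun i => (((⟨(bl u).get i, hb i⟩ : Fin (N + 1))) : ℕ)) = bl u := by
      simp only
      exact List.ofFn_get _
    rw [key, blk_bl] at hc
    exact hne hc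
  · intro b _ hb'
    rw [MvPolynomial.coeff_monomial, if_neg]
    intro he
    apply hb'
    have := Finsupp.equivFunOnFinite.symm.injective he
    funext i
    exact Fin.ext (congrFun this i)
  · intro h'
    exact absurd (Finset.mem_univ _) h'

/-! ### homogeneity -/

theorem ev_neg (u : List (Fin 2)) : ∀ l : List ℚ, ev (l.map fun z => -z) u =
    (-1) ^ (u.count 1) * ev l u := by
  induction u with
  | nil =>
    intro l
    match l with
    | [] => simp
    | [z] => simp [ev]
    | z :: y :: l => simp [ev]
  | cons i u ih =>
    intro l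
    by_cases h : i = 1
    · subst h
      cases l with
      | nil => simp
      | cons z l =>
        have := ih (z :: l)
        simp only [List.map_cons, ev_one, List.count_cons_self] at this ⊢
        rw [this, pow_succ]
        ring
    · have h0 : i = 0 := by omega
      subst h0
      cases l with
      | nil => simp
      | cons z l =>
        have := ih l
        simp only [List.map_cons, ev_zero] at this ⊢
        rw [this, List.count_cons_of_ne (by decide)]

theorem ev_ne (u : List (Fin 2)) (l : List ℚ) (h : ev l u ≠ 0) : u.count 0 + 1 = l.length := by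
  by_contra hne
  apply h
  rw [ev_eq_pr, pr_len]
  rw [bl_length]
  exact fun h => hne h.symm

theorem gf_neg {ψ : A} {N : ℕ} (hN : LenHom ψ N) (l : List ℚ) :
    gf ψ (l.map fun z => -z) = (-1) ^ (N + 1 + l.length) * gf ψ l := by
  unfold gf
  rw [lext_congr (G := fun u => (-1) ^ (N + 1 + l.length) * ev l u)]
  · have h : (lext (fun u => (-1) ^ (N + 1 + l.length) * ev l u) : A →ₗ[ℚ] ℚ) =
        ((-1 : ℚ) ^ (N + 1 + l.length)) • lext (ev l) := by
      refine lin_ext fun u => ?_
      rw [lext_wd, LinearMap.smul_apply, lext_wd, smul_eq_mul]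
    rw [h]
    rfl
  · intro u hu
    rw [ev_neg]
    by_cases h : ev l u = 0
    · rw [h, mul_zero, mul_zero]
    · have h1 := ev_ne u l h
      have h2 := hN u hu
      have h3 : u.count 0 + u.count 1 = u.length := Pool.Agent.TH19.DS.count_len u
      congr 1
      have h4 : N + 1 + l.length = u.count 1 + 2 * (u.count 0 + 1) := by omega
      rw [h4, pow_add, pow_mul]
      simp

end Pool.Agent.Zk87.PL
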