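import Pool.Agent.Zk87.PL.K4
import Pool.Agent.Zk87.PL.Dim4

/-!
# Three letters `x₀`, odd weight
-/

set_option autoImplicit false

namespace Pool.Agent.Zk87.PL

open Pool.Agent.H777R4.DM
open Pool.Agent.R241.DL (blk blk_rot blk_rev blk_rev' blk_one IN)

/-- the generating function in the coordinates of the signed permutations -/
noncomputable def Th : A →ₗ[ℚ] Fn where
  toFun := fun ψ p => gf ψ [p.1 + p.2.1 + p.2.2, -p.1 + p.2.1 - p.2.2, p.1 - p.2.1 - p.2.2,
    -p.1 - p.2.1 + p.2.2]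
  map_add' := by
    intro ψ φ
    funext p
    exact map_add (lext (ev _)) ψ φ
  map_smul' := by
    intro c ψ
    funext p
    exact map_smul (lext (ev _)) c ψ

theorem Th_apply (ψ : A) (a b c : ℚ) : Th ψ (a, b, c) =
    gf ψ [a + b + c, -a + b - c, a - b - c, -a - b + c] := rfl

section

variable {ψ : A} {N : ℕ}

theorem ex4 {a b c d a' b' c' d' : ℚ} (h1 : a = a') (h2 : b = b') (h3 : c = c') (h4 : d = d') :
    gf ψ [a, b, c, d] = gf ψ [a', b', c', d'] := by
  rw [h1, h2, h3, h4]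

/-- the relations for three letters -/
structure Rel3 (ψ : A) : Prop where
  rot : ∀ a b c d : ℚ, gf ψ [a, b, c, d] = gf ψ [b, c, d, a]
  rev : ∀ a b c d : ℚ, gf ψ [a, b, c, d] = gf ψ [d, c, b, a]
  one : ∀ z x p q : ℚ, gf ψ [z, x, p, q] + gf ψ [z, p, x, q] + gf ψ [z, p, q, x] = 0
  neg : ∀ a b c d : ℚ, gf ψ [-a, -b, -c, -d] = gf ψ [a, b, c, d]
  shift : ∀ t a b c d : ℚ, gf ψ [a + t, b + t, c + t, d + t] = gf ψ [a, b, c, d]
  step : ∀ t0 t1 t2 c : ℚ, gf ψ [t0, t0 + c, t1 + c, t2 + c] +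
      gf ψ [t0, t1, t1 + c, t2 + c] + gf ψ [t0, t1, t2, t2 + c] = 0

theorem rel3 (h : IsDM ψ) (hN : LenHom ψ N) (hodd : Odd N)
    (hm : ∀ u, co ψ u ≠ 0 → 3 ≤ u.count 0) : Rel3 ψ where
  rot := by
    intro a b c d
    have h1 := rel_two hN (m := 4) (by norm_num) (pm ![1, 2, 3, 0] (by decide)) 1 (by
      intro b
      have h2 := blk_rot h hN hm (by norm_num) 1 (List.ofFn b) (by simp)
      rw [one_mul, ← h2]
      congr 1) ![a, b, c, d]
    rw [one_mul] at h1
    exact h1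
  rev := by
    intro a b c d
    have h1 := rel_two hN (m := 4) (by norm_num) (pm ![3, 2, 1, 0] (by decide)) 1 (by
      intro b
      have h2 := blk_rev h hN (List.ofFn b)
      rw [hodd.add_one.neg_one_pow, one_mul] at h2
      rw [one_mul, ← h2]
      congr 1) ![a, b, c, d]
    rw [one_mul] at h1
    exact h1
  one := by
    intro z x p q
    have h1 := gf_rel hN (m := 4) (by norm_num) (Finset.univ : Finset (Fin 3)) ![1, 1, 1]
      ![pm ![0, 1, 2, 3] (by decide), pm ![0, 2, 1, 3] (by decide),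
        pm ![0, 2, 3, 1] (by decide)] (by
      intro b
      have h2 := blk_one h hN hm (by norm_num) (b 0) (b 1) [b 2, b 3] rfl
      simp only [IN] at h2
      simp only [Fin.sum_univ_three]
      have e : ∀ s : Fin 4 → Fin 4, ∀ hs, (List.ofFn fun i => b ((pm s hs) i)) =
          [b (s 0), b (s 1), b (s 2), b (s 3)] := fun s hs => rfl
      simp only [Matrix.cons_val_zero, Matrix.cons_val_one, Matrix.cons_val]
      rw [e, e, e]
      simp only [Matrix.cons_val_zero, Matrix.cons_val_one, Matrix.cons_val]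
      linear_combination h2) ![z, x, p, q]
    simp only [Fin.sum_univ_three] at h1
    have e : ∀ s : Fin 4 → Fin 4, ∀ hs, List.ofFn ((![z, x, p, q] : Fin 4 → ℚ) ∘ (pm s hs)) =
        [(![z, x, p, q] : Fin 4 → ℚ) (s 0), (![z, x, p, q] : Fin 4 → ℚ) (s 1),
          (![z, x, p, q] : Fin 4 → ℚ) (s 2), (![z, x, p, q] : Fin 4 → ℚ) (s 3)] :=
      fun s hs => rfl
    simp only [Matrix.cons_val_zero, Matrix.cons_val_one, Matrix.cons_val] at h1
    rw [e, e, e] at h1
    simp only [Matrix.cons_val_zero, Matrix.cons_val_one, Matrix.cons_val] at h1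
    linear_combination h1
  neg := by
    intro a b c d
    have := gf_neg hN [a, b, c, d]
    simp only [List.map_cons, List.map_nil, List.length_cons, List.length_nil] at this
    rw [this]
    have e : Even (N + 1 + (0 + 1 + 1 + 1 + 1)) := by
      obtain ⟨k, hk⟩ := hodd
      exact ⟨k + 3, by omega⟩
    rw [e.neg_one_pow, one_mul]
  shift := by
    intro t a b c d
    have := gf_shift h.mem t [a, b, c, d] (by simp)
    simpa only [List.map_cons, List.map_nil] using this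
  step := by
    intro t0 t1 t2 c
    have := gf_cuts h.mem c [t0, t1, t2] (by simp)
    simp only [cuts, List.map_cons, List.map_nil, List.sum_cons, List.sum_nil] at this
    linear_combination this

theorem Th_n1 (R : Rel3 ψ) (a b c : ℚ) : Th ψ (-a, b, c) = Th ψ (a, b, c) := by
  rw [Th_apply, Th_apply, ← R.neg (a + b + c), R.rot (-(a + b + c)), R.rot (-(-a + b - c))]
  exact ex4 (by ring) (by ring) (by ring) (by ring)

theorem Th_n2 (R : Rel3 ψ) (a b c : ℚ) : Th ψ (a, -b, c) = Th ψ (a, b, c) := by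
  rw [Th_apply, Th_apply, ← R.neg (a + b + c), R.rev (-(a + b + c)), R.rot (-(-a - b + c)),
    R.rot (-(a - b - c))]
  exact ex4 (by ring) (by ring) (by ring) (by ring)

theorem Th_n3 (R : Rel3 ψ) (a b c : ℚ) : Th ψ (a, b, -c) = Th ψ (a, b, c) := by
  rw [Th_apply, Th_apply, ← R.neg (a + b + c), R.rev (-(a + b + c))]
  exact ex4 (by ring) (by ring) (by ring) (by ring)

theorem Th_s23 (R : Rel3 ψ) (a b c : ℚ) : Th ψ (a, c, b) = Th ψ (a, b, c) := by
  rw [Th_apply, Th_apply, R.rot (a + b + c), R.rev (-a + b - c)]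
  exact ex4 (by ring) (by ring) (by ring) (by ring)

theorem Th_Sg (R : Rel3 ψ) (a b c : ℚ) : Sg (Th ψ) (a, b, c) = Th ψ (a, b, c) := by
  rw [Sg_apply]
  simp only [Th_n1 R, Th_n2 R, Th_n3 R]
  ring

theorem Th_ED (R : Rel3 ψ) : ED (Th ψ) = Th ψ := by
  refine fn_ext fun a b c => ?_
  rw [ED_apply, Th_Sg R, Th_Sg R, Th_s23 R]
  ring

theorem Th_EB (R : Rel3 ψ) : EB (Th ψ) = 0 := by
  refine fn_ext fun a b c => ?_
  rw [EB, LinearMap.comp_apply, Th_ED R, Cy_apply, Pi.zero_apply, Th_apply, Th_apply, Th_apply]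
  have h := R.one (a + b + c) (-a + b - c) (a - b - c) (-a - b + c)
  have h1 : gf ψ [b + c + a, -b + c - a, b - c - a, -b - c + a] =
      gf ψ [a + b + c, a - b - c, -a + b - c, -a - b + c] := by
    rw [R.rev (a + b + c), R.rot (-a - b + c), R.rot (-a + b - c), R.rot (a - b - c)]
    exact ex4 (by ring) (by ring) (by ring) (by ring)
  have h2 : gf ψ [c + a + b, -c + a - b, c - a - b, -c - a + b] =
      gf ψ [a + b + c, a - b - c, -a - b + c, -a + b - c] :=
    ex4 (by ring) (by ring) (by ring) (by ring)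
  rw [h1, h2]
  linear_combination (1 / 3) * h

theorem Th_EB_rh (R : Rel3 ψ) : EB (cm rh (Th ψ)) = 0 := by
  refine fn_ext fun a b c => ?_
  rw [EB, LinearMap.comp_apply, ED_rh, Th_ED R, Cy_apply, Pi.zero_apply]
  simp only [cm_apply, rh_apply]
  rw [Th_apply, Th_apply, Th_apply]
  have h := R.step (a + 2 * c) (3 * a - 2 * b) (a - 4 * b + 2 * c) (-2 * a + 2 * b - 2 * c)
  have h1 : gf ψ [a + (b + c) + (c - b), -a + (b + c) - (c - b), a - (b + c) - (c - b),
      -a - (b + c) + (c - b)] = gf ψ [a + 2 * c, a + 2 * c + (-2 * a + 2 * b - 2 * c),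
      3 * a - 2 * b + (-2 * a + 2 * b - 2 * c),
      a - 4 * b + 2 * c + (-2 * a + 2 * b - 2 * c)] := by
    exact ex4 (by ring) (by ring) (by ring) (by ring)
  have h2 : gf ψ [b + (c + a) + (a - c), -b + (c + a) - (a - c), b - (c + a) - (a - c),
      -b - (c + a) + (a - c)] = gf ψ [a + 2 * c, 3 * a - 2 * b,
      3 * a - 2 * b + (-2 * a + 2 * b - 2 * c),
      a - 4 * b + 2 * c + (-2 * a + 2 * b - 2 * c)] := by
    rw [R.rev (a + 2 * c), ← R.neg (a - 4 * b + 2 * c + (-2 * a + 2 * b - 2 * c)),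
      ← R.shift (a - b) (-(a - 4 * b + 2 * c + (-2 * a + 2 * b - 2 * c)))]
    exact ex4 (by ring) (by ring) (by ring) (by ring)
  have h3 : gf ψ [c + (a + b) + (b - a), -c + (a + b) - (b - a), c - (a + b) - (b - a),
      -c - (a + b) + (b - a)] = gf ψ [a + 2 * c, 3 * a - 2 * b, a - 4 * b + 2 * c,
      a - 4 * b + 2 * c + (-2 * a + 2 * b - 2 * c)] := by
    rw [← R.shift (-a + 2 * b - c) (a + 2 * c)]
    exact ex4 (by ring) (by ring) (by ring) (by ring)
  rw [h1, h2, h3]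
  linear_combination (1 / 3) * h

theorem Th_mem (hN : LenHom ψ N) (r : ℕ) (hr : N = r + 3) : Th ψ ∈ V r := by
  have e : Th ψ = ∑ b : Fin 4 → Fin (N + 1), co ψ (blk (List.ofFn fun i => (b i : ℕ))) •
      (fun p : P3 => (1 * p.1 + 1 * p.2.1 + 1 * p.2.2) ^ (b 0 : ℕ) *
        ((-1 * p.1 + 1 * p.2.1 + -1 * p.2.2) ^ (b 1 : ℕ) *
        ((1 * p.1 + -1 * p.2.1 + -1 * p.2.2) ^ (b 2 : ℕ) *
        ((-1 * p.1 + -1 * p.2.1 + 1 * p.2.2) ^ (b 3 : ℕ) * 1)))) := by
    funext p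
    have h1 := gf_formula hN (m := 4) (by norm_num) ![p.1 + p.2.1 + p.2.2,
      -p.1 + p.2.1 - p.2.2, p.1 - p.2.1 - p.2.2, -p.1 - p.2.1 + p.2.2]
    have h2 : Th ψ p = gf ψ (List.ofFn ![p.1 + p.2.1 + p.2.2,
      -p.1 + p.2.1 - p.2.2, p.1 - p.2.1 - p.2.2, -p.1 - p.2.1 + p.2.2]) := rfl
    rw [h2, h1, Finset.sum_apply]
    refine Finset.sum_congr rfl fun b _ => ?_
    rw [Pi.smul_apply, smul_eq_mul, Fin.prod_univ_four]
    simp only [Matrix.cons_val_zero, Matrix.cons_val_one, Matrix.cons_val]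
    have e1 : 1 * p.1 + 1 * p.2.1 + 1 * p.2.2 = p.1 + p.2.1 + p.2.2 := by ring
    have e2 : -1 * p.1 + 1 * p.2.1 + -1 * p.2.2 = -p.1 + p.2.1 - p.2.2 := by ring
    have e3 : 1 * p.1 + -1 * p.2.1 + -1 * p.2.2 = p.1 - p.2.1 - p.2.2 := by ring
    have e4 : -1 * p.1 + -1 * p.2.1 + 1 * p.2.2 = -p.1 - p.2.1 + p.2.2 := by ring
    rw [e1, e2, e3, e4]
    ring
  rw [e]
  refine Submodule.sum_mem _ fun b _ => ?_
  by_cases hb : co ψ (blk (List.ofFn fun i => (b i : ℕ))) = 0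
  · rw [hb, zero_smul]
    exact Submodule.zero_mem _
  · refine Submodule.smul_mem _ _ ?_
    have h3 := lin_pow (lin_pow (lin_pow (lin_pow one_mem (-1) (-1) 1 (b 3 : ℕ))
      1 (-1) (-1) (b 2 : ℕ)) (-1) 1 (-1) (b 1 : ℕ)) 1 1 1 (b 0 : ℕ)
    have h4 : 0 + (b 3 : ℕ) + (b 2 : ℕ) + (b 1 : ℕ) + (b 0 : ℕ) = r := by
      have h5 := bl_sum (blk (List.ofFn fun i => (b i : ℕ)))
      have h6 := bl_length (blk (List.ofFn fun i => (b i : ℕ)))
      have h7 := hN _ hb
      rw [bl_blk _ (by simp)] at h5 h6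
      have h8 : (List.ofFn fun i => (b i : ℕ)) = [(b 0 : ℕ), (b 1 : ℕ), (b 2 : ℕ), (b 3 : ℕ)] := rfl
      rw [h8] at h5 h6 h7
      simp only [List.sum_cons, List.sum_nil, List.length_cons, List.length_nil] at h5 h6
      omega
    rw [h4] at h3
    exact h3

/-- **The layer of three letters in odd weight.** -/
theorem Th_mem_XX3 (h : IsDM ψ) (hN : LenHom ψ N) (hodd : Odd N)
    (hm : ∀ u, co ψ u ≠ 0 → 3 ≤ u.count 0) (r : ℕ) (hr : N = r + 3) : Th ψ ∈ XX3 r :=
  ⟨Th_mem hN r hr, Th_ED (rel3 h hN hodd hm), Th_EB (rel3 h hN hodd hm),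
    Th_EB_rh (rel3 h hN hodd hm)⟩

/-- the kernel of `Th` -/
theorem Th_ker (h : IsDM ψ) (hN : LenHom ψ N) (h0 : Th ψ = 0) (u : List (Fin 2))
    (hu : u.count 0 = 3) : co ψ u = 0 := by
  refine gf_inj hN (m := 4) (by norm_num) (fun z => ?_) u (by omega)
  have h1 := congrFun h0 ((z 0 + z 2) / 2 - (z 0 + z 1 + z 2 + z 3) / 4,
    (z 0 + z 1) / 2 - (z 0 + z 1 + z 2 + z 3) / 4, (z 0 + z 3) / 2 - (z 0 + z 1 + z 2 + z 3) / 4)
  rw [Th_apply, Pi.zero_apply] at h1
  have h2 := gf_shift h.mem (-((z 0 + z 1 + z 2 + z 3) / 4)) [z 0, z 1, z 2, z 3] (by simp)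
  simp only [List.map_cons, List.map_nil] at h2
  have h3 : (List.ofFn z) = [z 0, z 1, z 2, z 3] := rfl
  rw [h3, ← h2, ← h1]
  exact ex4 (by ring) (by ring) (by ring) (by ring)

end

end Pool.Agent.Zk87.PL
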