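import Pool.Agent.Zk87.PL.Gf

/-!
# Four letters `x₀`, odd weight
-/

set_option autoImplicit false

namespace Pool.Agent.Zk87.PL

open Pool.Agent.H777R4.DM
open Pool.Agent.R241.DL (blk blk_rot blk_rev blk_rev' blk_one IN)

/-- a bijective self map as a permutation -/
noncomputable def pm {m : ℕ} (s : Fin m → Fin m) (hs : Function.Bijective s) :
    Equiv.Perm (Fin m) := Equiv.ofBijective s hs

section

variable {ψ : A} {N : ℕ}

theorem rel_two {m : ℕ} (hN : LenHom ψ N) (hm : 0 < m) (σ : Equiv.Perm (Fin m)) (e : ℚ)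
    (h : ∀ b : Fin m → ℕ, co ψ (blk (List.ofFn b)) = e * co ψ (blk (List.ofFn (b ∘ σ))))
    (z : Fin m → ℚ) : gf ψ (List.ofFn z) = e * gf ψ (List.ofFn (z ∘ σ)) := by
  have := gf_rel hN hm (Finset.univ : Finset (Fin 2)) ![1, -e] ![Equiv.refl _, σ] (by
    intro b
    have h1 := h b
    simp only [Fin.sum_univ_two, Matrix.cons_val_zero, Matrix.cons_val_one, Equiv.refl_apply]
    simp only [Function.comp_def] at h1
    linear_combination h1) z
  simp only [Fin.sum_univ_two, Matrix.cons_val_zero, Matrix.cons_val_one, Equiv.coe_refl,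
    Function.comp_id] at this
  linear_combination this

theorem four_zero (h : IsDM ψ) (hN : LenHom ψ N) (hodd : Odd N)
    (hm : ∀ u, co ψ u ≠ 0 → 4 ≤ u.count 0) (z0 z1 z2 z3 z4 : ℚ) :
    gf ψ [z0, z1, z2, z3, z4] = 0 := by
  -- rotation
  have c1 : ∀ a b c d e : ℚ, gf ψ [a, b, c, d, e] = gf ψ [b, c, d, e, a] := by
    intro a b c d e
    have h1 := rel_two hN (m := 5) (by norm_num) (pm ![1, 2, 3, 4, 0] (by decide)) 1 (by
      intro b
      have h2 := blk_rot h hN hm (by norm_num) 1 (List.ofFn b) (by simp)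
      rw [one_mul, ← h2]
      congr 1) ![a, b, c, d, e]
    rw [one_mul] at h1
    exact h1
  -- reversal
  have r1 : ∀ a b c d e : ℚ, gf ψ [a, b, c, d, e] = gf ψ [e, d, c, b, a] := by
    intro a b c d e
    have h1 := rel_two hN (m := 5) (by norm_num) (pm ![4, 3, 2, 1, 0] (by decide)) 1 (by
      intro b
      have h2 := blk_rev h hN (List.ofFn b)
      rw [hodd.add_one.neg_one_pow, one_mul] at h2
      rw [one_mul, ← h2]
      congr 1) ![a, b, c, d, e]
    rw [one_mul] at h1
    exact h1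
  -- one letter
  have s1 : ∀ z x p q r : ℚ, gf ψ [z, x, p, q, r] + gf ψ [z, p, x, q, r] + gf ψ [z, p, q, x, r] +
      gf ψ [z, p, q, r, x] = 0 := by
    intro z x p q r
    have h1 := gf_rel hN (m := 5) (by norm_num) (Finset.univ : Finset (Fin 4)) ![1, 1, 1, 1]
      ![pm ![0, 1, 2, 3, 4] (by decide), pm ![0, 2, 1, 3, 4] (by decide),
        pm ![0, 2, 3, 1, 4] (by decide), pm ![0, 2, 3, 4, 1] (by decide)] (by
      intro b
      have h2 := blk_one h hN hm (by norm_num) (b 0) (b 1) [b 2, b 3, b 4] rfl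
      simp only [IN] at h2
      simp only [Fin.sum_univ_four]
      have e : ∀ s : Fin 5 → Fin 5, ∀ hs, (List.ofFn fun i => b ((pm s hs) i)) =
          [b (s 0), b (s 1), b (s 2), b (s 3), b (s 4)] := fun s hs => rfl
      simp only [Matrix.cons_val_zero, Matrix.cons_val_one, Matrix.cons_val]
      rw [e, e, e, e]
      simp only [Matrix.cons_val_zero, Matrix.cons_val_one, Matrix.cons_val]
      linear_combination h2) ![z, x, p, q, r]
    simp only [Fin.sum_univ_four] at h1
    have e : ∀ s : Fin 5 → Fin 5, ∀ hs, List.ofFn ((![z, x, p, q, r] : Fin 5 → ℚ) ∘ (pm s hs)) =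
        [(![z, x, p, q, r] : Fin 5 → ℚ) (s 0), (![z, x, p, q, r] : Fin 5 → ℚ) (s 1),
          (![z, x, p, q, r] : Fin 5 → ℚ) (s 2), (![z, x, p, q, r] : Fin 5 → ℚ) (s 3),
          (![z, x, p, q, r] : Fin 5 → ℚ) (s 4)] := fun s hs => rfl
    simp only [Matrix.cons_val_zero, Matrix.cons_val_one, Matrix.cons_val] at h1
    rw [e, e, e, e] at h1
    simp only [Matrix.cons_val_zero, Matrix.cons_val_one, Matrix.cons_val] at h1
    linear_combination h1
  have c2 : ∀ a b c d e : ℚ, gf ψ [a, b, c, d, e] = gf ψ [c, d, e, a, b] :=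
    fun a b c d e => (c1 a b c d e).trans (c1 b c d e a)
  have as1 : ∀ z a b c d : ℚ, gf ψ [z, a, b, c, d] + gf ψ [z, b, a, c, d] = 0 := by
    intro z a b c d
    linear_combination (1/2) * s1 z a b c d + (1/2) * s1 z b a c d + (-1/2) * s1 z d a c b +
      (-1/2) * r1 z b c a d + (-1/2) * c1 d a c b z + (-1/2) * r1 z b c d a +
      (1/2) * c2 z d a c b + (1/2) * c1 z a d c b
  -- adjacent transpositions
  have t0 : ∀ a b c d e : ℚ, gf ψ [b, a, c, d, e] = - gf ψ [a, b, c, d, e] := by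
    intro a b c d e
    linear_combination as1 e a b c d - c1 e a b c d - c1 e b a c d
  have t1 : ∀ a b c d e : ℚ, gf ψ [a, c, b, d, e] = - gf ψ [a, b, c, d, e] := by
    intro a b c d e
    linear_combination as1 a b c d e
  have t2 : ∀ a b c d e : ℚ, gf ψ [a, b, d, c, e] = - gf ψ [a, b, c, d, e] := by
    intro a b c d e
    linear_combination c1 a b d c e + c1 a b c d e + as1 b c d e a
  have t3 : ∀ a b c d e : ℚ, gf ψ [a, b, c, e, d] = - gf ψ [a, b, c, d, e] := by
    intro a b c d e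
    linear_combination c1 a b c e d + c1 a b c d e + t2 b c d e a
  -- one step
  have l1 : ∀ t0 t1 t2 t3 c : ℚ, gf ψ [t0, t0 + c, t1 + c, t2 + c, t3 + c] +
      gf ψ [t0, t1, t1 + c, t2 + c, t3 + c] + gf ψ [t0, t1, t2, t2 + c, t3 + c] +
      gf ψ [t0, t1, t2, t3, t3 + c] = 0 := by
    intro t0 t1 t2 t3 c
    have := gf_cuts h.mem c [t0, t1, t2, t3] (by simp)
    simp only [cuts, List.map_cons, List.map_nil, List.sum_cons, List.sum_nil] at this
    linear_combination this
  -- a parallelogram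
  have a1 : ∀ p c d a b : ℚ, gf ψ [p, p + c, p + c + d, a, b] =
      - gf ψ [p, p + d, p + c + d, a, b] := by
    intro p c d a b
    have u1 := l1 p (p + d) (a - c) (b - c) c
    have u2 := l1 (p + d) p (a - c) (b - c) c
    have u3 := l1 p (p + c) (a - d) (b - d) d
    have u4 := l1 (p + c) p (a - d) (b - d) d
    have e1 : p + d + c = p + c + d := by ring
    rw [sub_add_cancel, sub_add_cancel] at u1 u2 u3 u4
    rw [e1] at u1 u2
    have v1 := t0 p (p + d) (a - c) a b
    have v2 := t0 p (p + d) (a - c) (b - c) b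
    have v3 := t0 p (p + c) (a - d) a b
    have v4 := t0 p (p + c) (a - d) (b - d) b
    -- the remaining terms
    have w1 : gf ψ [p + d, p + c + d, p + c, a, b] = - gf ψ [p + c, p + c + d, p + d, a, b] := by
      rw [t0 (p + c + d) (p + d), t1 (p + c + d) (p + c) (p + d), t0 (p + c) (p + c + d)]
      ring
    have w2 : gf ψ [p + d, p, p + c, a, b] = - gf ψ [p + c, p, p + d, a, b] := by
      rw [t0 p (p + d), t1 p (p + c) (p + d), t0 (p + c) p]
      ring
    linear_combination (1 / 2) * (u1 + u2 + u3 + u4) - (1 / 2) * (v1 + v2 + v3 + v4) -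
      (1 / 2) * (w1 + w2)
  -- the rotation of order six
  have b1 : ∀ p q r a b : ℚ, gf ψ [p, q, r, a, b] = gf ψ [p, r, p + r - q, a, b] := by
    intro p q r a b
    have h1 := a1 p (q - p) (r - q) a b
    have e1 : p + (q - p) = q := by ring
    have e2 : q + (r - q) = r := by ring
    have e3 : p + (r - q) = p + r - q := by ring
    rw [e1, e2, e3] at h1
    rw [h1, ← t1]
  have b3 : ∀ p q r a b : ℚ, gf ψ [p, q, r, a, b] = gf ψ [p, 2 * p - q, 2 * p - r, a, b] := by
    intro p q r a b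
    rw [b1 p q r, b1 p r (p + r - q), b1 p (p + r - q) (p + (p + r - q) - r)]
    congr 1
    have e1 : p + (p + r - q) - r = 2 * p - q := by ring
    have e2 : p + (p + (p + r - q) - r) - (p + r - q) = 2 * p - r := by ring
    rw [e2, e1]
  -- exchange of the pairs
  have x1 : ∀ p q r a b : ℚ, gf ψ [p, q, r, a, b] = gf ψ [p, a, b, q, r] := by
    intro p q r a b
    rw [t2 p q a r b, t1 p a q r b, t3 p a q b r, t2 p a b q r]
    ring
  have f1 := b3 z0 z1 z2 z3 z4
  have f2 := x1 z0 (2 * z0 - z1) (2 * z0 - z2) z3 z4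
  have f3 := b3 z0 z3 z4 (2 * z0 - z1) (2 * z0 - z2)
  have f4 := x1 z0 (2 * z0 - z3) (2 * z0 - z4) (2 * z0 - z1) (2 * z0 - z2)
  have f5 := gf_neg hN [z0, z1, z2, z3, z4]
  have f6 := gf_shift h.mem (2 * z0) [-z0, -z1, -z2, -z3, -z4] (by simp)
  simp only [List.map_cons, List.map_nil, List.length_cons, List.length_nil] at f5 f6
  have e5 : (-1 : ℚ) ^ (N + 1 + (0 + 1 + 1 + 1 + 1 + 1)) = -1 := by
    have : Odd (N + 1 + (0 + 1 + 1 + 1 + 1 + 1)) := by
      obtain ⟨k, hk⟩ := hodd
      exact ⟨k + 3, by omega⟩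
    exact this.neg_one_pow
  rw [e5] at f5
  have g0 : -z0 + 2 * z0 = z0 := by ring
  have g1 : -z1 + 2 * z0 = 2 * z0 - z1 := by ring
  have g2 : -z2 + 2 * z0 = 2 * z0 - z2 := by ring
  have g3 : -z3 + 2 * z0 = 2 * z0 - z3 := by ring
  have g4 : -z4 + 2 * z0 = 2 * z0 - z4 := by ring
  rw [g0, g1, g2, g3, g4] at f6
  linear_combination (1 / 2) * (f1 + f2 + f3 + f4 + f5 + f6)

/-- **Parity for four letters.** In odd weight the words with four letters vanish if those with at
most three do. -/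
theorem four_odd (h : IsDM ψ) (hN : LenHom ψ N) (hodd : Odd N)
    (hm : ∀ u, co ψ u ≠ 0 → 4 ≤ u.count 0) (u : List (Fin 2)) (hu : u.count 0 = 4) :
    co ψ u = 0 := by
  refine gf_inj hN (m := 5) (by norm_num) (fun z => ?_) u (by omega)
  have := four_zero h hN hodd hm (z 0) (z 1) (z 2) (z 3) (z 4)
  rw [← this]
  rfl

end

end Pool.Agent.Zk87.PL
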